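import Mathlib
import Pool.Agent.Work.MP_787500_nt.KR.LD2
import Pool.Agent.Work.MP_787500_nt.KR.A1_Cnt
import Pool.Agent.Work.MP_787500_nt.LB.TameN

/-!
Tame local groups and unramified cocycles with values in finite modules: definitions.
-/

set_option autoImplicit false
set_option linter.unusedSectionVars false

namespace Pool.Agent.Work.MP_787500_nt.QL

open Pool.Agent.Work.MP_787500_nt.GP (A0 hf IsAct d0 d1 d2 tw cup11)
open Pool.Agent.Work.MP_787500_nt.KR (FSys Sm1 Sm2 Z1 Z2 B2 Smooth IsChar LocH Pair LDual z1s b1s)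
open Pool.Agent.Work.MP_787500_nt.LB (Pr)

/-- A group `D` with inertia group `I`, character `χ`, Kummer cocycle `a`, Frobenius element `σ`, tame
generator `τ`; `S` is the system of the open normal subgroups. -/
structure TameF {D : Type*} [Group D] (S : FSys D) (χ a : D → ℤ_[2]) (σ τ : D) (l : ℕ)
    (I : Subgroup D) : Prop where
  char : IsChar S χ
  coc : ∀ g h, a (g * h) = a g + χ g * a h
  lodd : Odd l
  lt : 2 < l
  σχ : χ σ = l
  σa : a σ = 0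
  τχ : χ τ = 1
  τa : a τ = 1
  dens : ∀ (g : D) (n : ℕ), ∃ i : ℕ, (2 : ℤ_[2]) ^ n ∣ χ g - (l : ℤ_[2]) ^ i
  po : ∀ g, χ g = 1 → a g = 0 → ∀ W, S.mem W → g * g ∈ W → g ∈ W
  sep : ∀ W, S.mem W → ∃ n : ℕ, ∀ g, (2 : ℤ_[2]) ^ n ∣ χ g - 1 → (2 : ℤ_[2]) ^ n ∣ a g →
    ∃ p, χ p = 1 ∧ a p = 0 ∧ p⁻¹ * g ∈ W
  In : I.Normal
  Iχ : ∀ g ∈ I, χ g = 1
  τI : τ ∈ I
  frob : ∀ g W, S.mem W → ∃ i : ℕ, ∃ n ∈ I, (σ ^ i * n)⁻¹ * g ∈ W

section defs

variable {D : Type*} [Group D] (S : FSys D) (I : Subgroup D) {M : Type*} [AddCommGroup M]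
  {ρ : D → M → M}

/-- the cocycles whose restriction to `I` is a coboundary -/
def zur (h : IsAct ρ) : AddSubgroup (D → M) where
  carrier := {x | Z1 S ρ x ∧ ∃ m, ∀ i ∈ I, x i = d0 ρ m i}
  add_mem' := by
    rintro x y ⟨h1, m, hm⟩ ⟨h1', m', hm'⟩
    refine ⟨(z1s S h).add_mem h1 h1', m + m', fun i hi => ?_⟩
    simp only [Pi.add_apply, hm i hi, hm' i hi, d0, h.add]
    abel
  zero_mem' := ⟨(z1s S h).zero_mem, 0, fun i _ => by simp [d0, h.zero]⟩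
  neg_mem' := by
    rintro x ⟨h1, m, hm⟩
    refine ⟨(z1s S h).neg_mem h1, -m, fun i hi => ?_⟩
    simp only [Pi.neg_apply, hm i hi, d0, h.neg]
    abel

theorem mem_zur {h : IsAct ρ} {x : D → M} :
    x ∈ zur S I h ↔ Z1 S ρ x ∧ ∃ m, ∀ i ∈ I, x i = d0 ρ m i := Iff.rfl

/-- the fixed elements -/
def fixG (h : IsAct ρ) : AddSubgroup M where
  carrier := {m | ∀ g, ρ g m = m}
  add_mem' := fun hm hm' g => by rw [h.add, hm g, hm' g]
  zero_mem' := fun g => h.zero g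
  neg_mem' := fun hm g => by rw [h.neg, hm g]

theorem mem_fixG {h : IsAct ρ} {m : M} : m ∈ fixG h ↔ ∀ g, ρ g m = m := Iff.rfl

/-- the elements fixed by a subgroup -/
def fixP (P : Subgroup D) (h : IsAct ρ) : AddSubgroup M where
  carrier := {m | ∀ g ∈ P, ρ g m = m}
  add_mem' := fun hm hm' g hg => by rw [h.add, hm g hg, hm' g hg]
  zero_mem' := fun g _ => h.zero g
  neg_mem' := fun hm g hg => by rw [h.neg, hm g hg]

theorem mem_fixP {P : Subgroup D} {h : IsAct ρ} {m : M} : m ∈ fixP P h ↔ ∀ g ∈ P, ρ g m = m := Iff.rfl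

end defs

section basic

variable {D : Type*} [Group D] {S : FSys D} {χ a : D → ℤ_[2]} {σ τ : D} {l : ℕ} {I : Subgroup D}

theorem TameF.pr (h : TameF S χ a σ τ l I) : Pr χ a := ⟨h.char.one, h.char.mul, h.char.odd, h.coc⟩

/-- the elements at which `χ` is 1 and `a` is 0 -/
def TameF.P (h : TameF S χ a σ τ l I) : Subgroup D where
  carrier := {g | χ g = 1 ∧ a g = 0}
  mul_mem' := by
    rintro g g' ⟨h1, h2⟩ ⟨h3, h4⟩
    exact ⟨by rw [h.char.mul, h1, h3, one_mul], by rw [h.coc, h2, h4, mul_zero, add_zero]⟩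
  one_mem' := ⟨h.char.one, h.pr.a_one⟩
  inv_mem' := by
    rintro g ⟨h1, h2⟩
    have h3 := h.pr.chi_inv g
    have h4 := h.pr.a_inv g
    rw [h1, one_mul] at h3 h4
    exact ⟨h3, by rw [h4, h2, neg_zero]⟩

theorem TameF.mem_P (h : TameF S χ a σ τ l I) {g : D} : g ∈ h.P ↔ χ g = 1 ∧ a g = 0 := Iff.rfl

theorem TameF.P_normal (h : TameF S χ a σ τ l I) : h.P.Normal := by
  refine ⟨fun g hg x => ?_⟩
  obtain ⟨h1, h2⟩ := hg
  have e := h.pr.chi_inv x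
  have e' := h.pr.a_inv x
  refine ⟨by rw [h.char.mul, h.char.mul, h1, mul_one, e], ?_⟩
  rw [h.coc, h.coc, h.char.mul, h1, h2, mul_one, mul_zero, add_zero, e', add_neg_cancel]

theorem TameF.tau_pow (h : TameF S χ a σ τ l I) (j : ℕ) : χ (τ ^ j) = 1 ∧ a (τ ^ j) = j := by
  induction j with
  | zero =>
    rw [pow_zero]
    exact ⟨h.char.one, by rw [h.pr.a_one, Nat.cast_zero]⟩
  | succ j ih =>
    rw [pow_succ]
    refine ⟨by rw [h.char.mul, ih.1, h.τχ, mul_one], ?_⟩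
    rw [h.coc, ih.1, ih.2, h.τa, mul_one]
    push_cast
    ring

theorem TameF.sig_pow (h : TameF S χ a σ τ l I) (i : ℕ) :
    χ (σ ^ i) = (l : ℤ_[2]) ^ i ∧ a (σ ^ i) = 0 := by
  induction i with
  | zero =>
    rw [pow_zero, pow_zero]
    exact ⟨h.char.one, h.pr.a_one⟩
  | succ i ih =>
    rw [pow_succ, pow_succ]
    refine ⟨by rw [h.char.mul, ih.1, h.σχ], ?_⟩
    rw [h.coc, ih.1, ih.2, h.σa, mul_zero, add_zero]

/-- every element is a product of powers of `σ`, `τ`, an element of `P` and an element of `W` -/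
theorem TameF.gen (h : TameF S χ a σ τ l I) {W : Subgroup D} (hW : S.mem W) (g : D) :
    ∃ i j : ℕ, ∃ p ∈ h.P, (σ ^ i * τ ^ j * p)⁻¹ * g ∈ W := by
  obtain ⟨n, hn⟩ := h.sep W hW
  obtain ⟨i, hi⟩ := h.dens g n
  have h1 : σ ^ i * ((σ ^ i)⁻¹ * g) = g := mul_inv_cancel_left _ _
  have hu : IsUnit (χ (σ ^ i)) := LB.unit_of_odd (h.char.odd _)
  have h2 : (2 : ℤ_[2]) ^ n ∣ χ ((σ ^ i)⁻¹ * g) - 1 := by
    have e : χ (σ ^ i) * (χ ((σ ^ i)⁻¹ * g) - 1) = χ g - (l : ℤ_[2]) ^ i := by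
      rw [mul_sub, ← h.char.mul, h1, mul_one, (h.sig_pow i).1]
    rw [← e] at hi
    exact (hu.dvd_mul_left).1 hi
  obtain ⟨j, hj⟩ := GP.g1_nat (a ((σ ^ i)⁻¹ * g)) n
  have h3 : τ ^ j * ((τ ^ j)⁻¹ * ((σ ^ i)⁻¹ * g)) = (σ ^ i)⁻¹ * g := mul_inv_cancel_left _ _
  have h4 : χ ((τ ^ j)⁻¹ * ((σ ^ i)⁻¹ * g)) = χ ((σ ^ i)⁻¹ * g) := by
    have e := congrArg χ h3
    rwa [h.char.mul, (h.tau_pow j).1, one_mul] at e
  have h5 : a ((τ ^ j)⁻¹ * ((σ ^ i)⁻¹ * g)) = a ((σ ^ i)⁻¹ * g) - j := by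
    have e := congrArg a h3
    rw [h.coc, (h.tau_pow j).1, (h.tau_pow j).2, one_mul] at e
    linear_combination e
  obtain ⟨p, hp1, hp2, hp3⟩ := hn ((τ ^ j)⁻¹ * ((σ ^ i)⁻¹ * g)) (by rw [h4]; exact h2)
    (by rw [h5]; exact hj)
  refine ⟨i, j, p, ⟨hp1, hp2⟩, ?_⟩
  have e : (σ ^ i * τ ^ j * p)⁻¹ * g = p⁻¹ * ((τ ^ j)⁻¹ * ((σ ^ i)⁻¹ * g)) := by group
  rw [e]
  exact hp3

/-- the relation between `σ` and `τ` modulo `P` -/
theorem TameF.rel (h : TameF S χ a σ τ l I) : ∃ p ∈ h.P, σ * τ = τ ^ l * σ * p := by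
  refine ⟨(τ ^ l * σ)⁻¹ * (σ * τ), ?_, by group⟩
  have e : (τ ^ l * σ) * ((τ ^ l * σ)⁻¹ * (σ * τ)) = σ * τ := mul_inv_cancel_left _ _
  have hχ : χ (τ ^ l * σ) = l := by rw [h.char.mul, (h.tau_pow l).1, h.σχ, one_mul]
  have ha : a (τ ^ l * σ) = l := by
    rw [h.coc, (h.tau_pow l).2, h.σa, mul_zero, add_zero]
  have hu : IsUnit (l : ℤ_[2]) := by
    rw [← h.σχ]
    exact LB.unit_of_odd (h.char.odd _)
  constructor
  · have e1 := congrArg χ e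
    rw [h.char.mul, hχ, h.char.mul σ τ, h.σχ, h.τχ, mul_one] at e1
    exact hu.mul_eq_left.1 e1
  · have e1 := congrArg a e
    rw [h.coc, hχ, ha, h.coc σ τ, h.σχ, h.σa, h.τa, mul_one, zero_add] at e1
    have e2 : (l : ℤ_[2]) * a ((τ ^ l * σ)⁻¹ * (σ * τ)) = 0 := by linear_combination e1
    exact (hu.mul_right_eq_zero).1 e2

/-- a subgroup of `P` of index prime to 2 -/
theorem TameF.odd_quot (h : TameF S χ a σ τ l I) {W : Subgroup D} (hW : S.mem W) :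
    Odd (Nat.card (h.P ⧸ W.subgroupOf h.P)) := by
  have hn := S.normal hW
  have hfi : (W.subgroupOf h.P).index ≠ 0 := by
    intro h0
    have h1 : W.relIndex h.P ∣ W.index := Subgroup.relIndex_dvd_index_of_normal _ _
    exact S.index hW (Nat.eq_zero_of_zero_dvd ((show W.relIndex h.P = 0 from h0) ▸ h1))
  have hfin : Finite (h.P ⧸ W.subgroupOf h.P) := Nat.finite_of_card_ne_zero hfi
  rw [← Nat.not_even_iff_odd]
  intro hev
  obtain ⟨q, hq⟩ := exists_prime_orderOf_dvd_card' (G := h.P ⧸ W.subgroupOf h.P) 2 hev.two_dvd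
  obtain ⟨p, rfl⟩ := QuotientGroup.mk_surjective q
  have h1 : ((p * p : h.P) : h.P ⧸ W.subgroupOf h.P) = 1 := by
    have := pow_orderOf_eq_one (p : h.P ⧸ W.subgroupOf h.P)
    rw [hq, pow_two] at this
    exact this
  rw [QuotientGroup.eq_one_iff, Subgroup.mem_subgroupOf] at h1
  have h2 : (p : D) ∈ W := h.po p p.2.1 p.2.2 W hW h1
  have h3 : (p : h.P ⧸ W.subgroupOf h.P) = 1 := by
    rw [QuotientGroup.eq_one_iff, Subgroup.mem_subgroupOf]
    exact h2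
  rw [h3, orderOf_one] at hq
  exact absurd hq (by norm_num)

end basic

end Pool.Agent.Work.MP_787500_nt.QL
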