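import Mathlib
import Pool.Agent.Work.MP_787500_nt.QL.Defs

/-!
The number of 1-cocycles of a tame local group with values in a finite module `M` of 2-power order is at most
`|M|` times the number of fixed elements of the dual of `M`.
-/

set_option autoImplicit false
set_option linter.unusedSectionVars false

namespace Pool.Agent.Work.MP_787500_nt.QL

open Pool.Agent.Work.MP_787500_nt.GP (A0 hf IsAct d0 d1 d2 tw cup11)
open Pool.Agent.Work.MP_787500_nt.KR (FSys Sm1 Sm2 Z1 Z2 B2 Smooth IsChar LocH Pair LDual z1s b1s mem_z1s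
  odd_cancel)
open Pool.Agent.Work.MP_787500_nt.LB (Pr)

variable {D : Type*} [Group D] {S : FSys D} {χ a : D → ℤ_[2]} {σ τ : D} {l : ℕ} {I : Subgroup D}
  {M M' : Type*} [AddCommGroup M] [AddCommGroup M'] {ρ : D → M → M} {ρ' : D → M' → M'}
  {B : M →+ M' →+ A0}

theorem act_nsmul {G : Type*} [Group G] {M : Type*} [AddCommGroup M] {ρ : G → M → M}
    (h : IsAct ρ) (g : G) (n : ℕ) (m : M) : ρ g (n • m) = n • ρ g m := by
  induction n with
  | zero => simp only [zero_smul, h.zero]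
  | succ n ih => rw [succ_nsmul, h.add, ih, succ_nsmul]

section sums

variable (h : TameF S χ a σ τ l I) (W : Subgroup D)

/-- the sum over the elements of the image of `P` modulo `W` -/
noncomputable def sumP [Fintype (h.P ⧸ W.subgroupOf h.P)] (ρ : D → M → M) (m : M) : M :=
  ∑ q : h.P ⧸ W.subgroupOf h.P, ρ ((q.out : h.P) : D) m

variable {W} [Fintype (h.P ⧸ W.subgroupOf h.P)]

theorem out_mul [W.Normal] (p : h.P) (q : h.P ⧸ W.subgroupOf h.P) :
    ∃ w ∈ W, (p : D) * ((q.out : h.P) : D) = ((((p : h.P ⧸ W.subgroupOf h.P) * q).out : h.P) : D) * w := by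
  refine ⟨((((p : h.P ⧸ W.subgroupOf h.P) * q).out : h.P) : D)⁻¹ * ((p : D) * ((q.out : h.P) : D)), ?_,
    by group⟩
  have h1 : (((p : h.P ⧸ W.subgroupOf h.P) * q).out : h.P ⧸ W.subgroupOf h.P) =
      ((p * q.out : h.P) : h.P ⧸ W.subgroupOf h.P) := by
    rw [QuotientGroup.out_eq', QuotientGroup.mk_mul, QuotientGroup.out_eq']
  have h2 := QuotientGroup.eq.1 h1
  rw [Subgroup.mem_subgroupOf] at h2
  exact h2

theorem out_mem (q : h.P ⧸ W.subgroupOf h.P) : ((q.out : h.P) : D) ∈ h.P := q.out.2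

theorem sum_out [W.Normal] {f : D → M} (hf : ∀ g, ∀ w ∈ W, f (g * w) = f g) {p : D} (hp : p ∈ h.P) :
    ∑ q : h.P ⧸ W.subgroupOf h.P, f (p * ((q.out : h.P) : D)) =
      ∑ q : h.P ⧸ W.subgroupOf h.P, f ((q.out : h.P) : D) := by
  have e0 := Equiv.sum_comp (Equiv.mulLeft ((⟨p, hp⟩ : h.P) : h.P ⧸ W.subgroupOf h.P))
    (fun q => f ((q.out : h.P) : D))
  rw [← e0]
  refine Finset.sum_congr rfl fun q _ => ?_
  obtain ⟨w, hw, e⟩ := out_mul h ⟨p, hp⟩ q
  have e' : p * ((q.out : h.P) : D) =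
      (((((⟨p, hp⟩ : h.P) : h.P ⧸ W.subgroupOf h.P) * q).out : h.P) : D) * w := e
  rw [e', hf _ w hw]
  rfl

theorem sumP_fix [W.Normal] (hr : IsAct ρ) (hW : ∀ w ∈ W, ∀ m, ρ w m = m) (m : M) :
    sumP h W ρ m ∈ fixP h.P hr := by
  intro p hp
  have e : ρ p (sumP h W ρ m) = ∑ q : h.P ⧸ W.subgroupOf h.P, ρ (p * ((q.out : h.P) : D)) m := by
    unfold sumP
    rw [KR.IsAct.sum' hr]
    exact Finset.sum_congr rfl fun q _ => (hr.mul _ _ _).symm
  rw [e]
  exact sum_out h (f := fun g => ρ g m) (fun g w hw => by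
    show ρ (g * w) m = ρ g m
    rw [hr.mul, hW w hw]) hp

theorem B_sumP (hp : Pair S χ ρ ρ' B) {n : M} (hn : n ∈ fixP h.P hp.act) (m' : M') :
    B n (sumP h W ρ' m') = Fintype.card (h.P ⧸ W.subgroupOf h.P) • B n m' := by
  unfold sumP
  rw [map_sum, Finset.sum_congr rfl (g := fun _ => B n m') fun q _ => ?_]
  · rw [Finset.sum_const, Finset.card_univ]
  · have h1 := hp.eqv ((q.out : h.P) : D) n m'
    rw [hn _ q.out.2, (h.mem_P.1 q.out.2).1, one_smul] at h1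
    exact h1

theorem B_sumP' (hp : Pair S χ ρ ρ' B) {n : M'} (hn : n ∈ fixP h.P hp.act') (m : M) :
    B (sumP h W ρ m) n = Fintype.card (h.P ⧸ W.subgroupOf h.P) • B m n := by
  unfold sumP
  rw [map_sum, AddMonoidHom.finset_sum_apply,
    Finset.sum_congr rfl (g := fun _ => B m n) fun q _ => ?_]
  · rw [Finset.sum_const, Finset.card_univ]
  · have h1 := hp.eqv ((q.out : h.P) : D) m n
    rw [hn _ q.out.2, (h.mem_P.1 q.out.2).1, one_smul] at h1
    exact h1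

end sums

section count

variable [Finite M] [Finite M']

/-- the cocycles that vanish on `P` -/
def zP (h : TameF S χ a σ τ l I) (hr : IsAct ρ) : AddSubgroup (D → M) where
  carrier := {x | Z1 S ρ x ∧ ∀ p ∈ h.P, x p = 0}
  add_mem' := by
    rintro x y ⟨h1, h2⟩ ⟨h1', h2'⟩
    refine ⟨(z1s S hr).add_mem h1 h1', fun p hp => ?_⟩
    rw [Pi.add_apply, h2 p hp, h2' p hp, add_zero]
  zero_mem' := ⟨(z1s S hr).zero_mem, fun _ _ => rfl⟩
  neg_mem' := by
    rintro x ⟨h1, h2⟩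
    refine ⟨(z1s S hr).neg_mem h1, fun p hp => ?_⟩
    rw [Pi.neg_apply, h2 p hp, neg_zero]

/-- a cocycle is a coboundary on `P` -/
theorem cob_P (h : TameF S χ a σ τ l I) (hp : Pair S χ ρ ρ' B) {x : D → M} (hx : Z1 S ρ x) :
    ∃ m, ∀ p ∈ h.P, x p = d0 ρ m p := by
  obtain ⟨⟨W, hW, h1⟩, h2⟩ := hx
  have hn := S.normal hW
  have hodd := h.odd_quot hW
  have hfin : Finite (h.P ⧸ W.subgroupOf h.P) := Nat.finite_of_card_ne_zero fun h0 => by
    rw [h0] at hodd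
    exact absurd hodd (by decide)
  have := Fintype.ofFinite (h.P ⧸ W.subgroupOf h.P)
  obtain ⟨c, hc, -⟩ := odd_cancel hp hodd
  refine ⟨-(c • ∑ q : h.P ⧸ W.subgroupOf h.P, x ((q.out : h.P) : D)), fun p hpp => ?_⟩
  have e1 := sum_out h (f := x) h1 hpp
  have e2 : ∑ q : h.P ⧸ W.subgroupOf h.P, x (p * ((q.out : h.P) : D)) =
      Nat.card (h.P ⧸ W.subgroupOf h.P) • x p +
        ρ p (∑ q : h.P ⧸ W.subgroupOf h.P, x ((q.out : h.P) : D)) := by
    rw [KR.IsAct.sum' hp.act, Finset.sum_congr rfl fun q _ => h2 p _, Finset.sum_add_distrib,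
      Finset.sum_const, Finset.card_univ, Nat.card_eq_fintype_card]
  rw [e2] at e1
  have e3 := congrArg (fun m : M => c • m) e1
  simp only [smul_add] at e3
  rw [smul_smul, hc] at e3
  simp only [d0]
  rw [hp.act.neg, act_nsmul hp.act]
  rw [← e3]
  abel

theorem zP_fix {h : TameF S χ a σ τ l I} {hr : IsAct ρ} {x : D → M} (hx : x ∈ zP h hr) (g : D) :
    x g ∈ fixP h.P hr := by
  intro p hp
  have h1 : x (p * g) = ρ p (x g) := by rw [hx.1.2, hx.2 p hp, zero_add]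
  have h2 : g⁻¹ * p * g ∈ h.P := by
    have := h.P_normal.conj_mem p hp g⁻¹
    rwa [inv_inv] at this
  have h3 : x (p * g) = x g := by
    have e : p * g = g * (g⁻¹ * p * g) := by group
    rw [e, hx.1.2, hx.2 _ h2, hr.zero, add_zero]
  rw [← h1, h3]

theorem zP_mul {h : TameF S χ a σ τ l I} {hr : IsAct ρ} {x : D → M} (hx : x ∈ zP h hr) (g : D) {p : D}
    (hp : p ∈ h.P) : x (g * p) = x g := by
  rw [hx.1.2, hx.2 p hp, hr.zero, add_zero]

theorem coc_pow (hr : IsAct ρ) {x : D → M} (hx : ∀ a b, x (a * b) = x a + ρ a (x b)) (g : D) (k : ℕ) :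
    x (g ^ k) = ∑ i ∈ Finset.range k, ρ (g ^ i) (x g) := by
  induction k with
  | zero =>
    have := hx 1 1
    rw [mul_one, hr.one] at this
    rw [pow_zero, Finset.sum_range_zero]
    exact left_eq_add.1 this
  | succ k ih => rw [pow_succ, hx, ih, Finset.sum_range_succ]

theorem zP_det {h : TameF S χ a σ τ l I} {hr : IsAct ρ} {x : D → M} (hx : x ∈ zP h hr)
    (h1 : x σ = 0) (h2 : x τ = 0) : x = 0 := by
  funext g
  obtain ⟨W, hW, h3⟩ := hx.1.1
  obtain ⟨i, j, p, hp, hg⟩ := h.gen hW g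
  have e1 : x (σ ^ i) = 0 := by
    rw [coc_pow hr hx.1.2, h1]
    exact Finset.sum_eq_zero fun k _ => hr.zero _
  have e2 : x (τ ^ j) = 0 := by
    rw [coc_pow hr hx.1.2, h2]
    exact Finset.sum_eq_zero fun k _ => hr.zero _
  have e3 := h3 (σ ^ i * τ ^ j * p) _ hg
  rw [mul_inv_cancel_left] at e3
  rw [e3, zP_mul hx _ hp, hx.1.2, e1, e2, hr.zero, add_zero]
  rfl

/-- `|M| |zP| = |M^P| |Z1|` -/
theorem card_zP (h : TameF S χ a σ τ l I) (hp : Pair S χ ρ ρ' B)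
    (hfin : Finite (z1s S hp.act)) :
    Nat.card M * Nat.card (zP h hp.act) = Nat.card (fixP h.P hp.act) * Nat.card (z1s S hp.act) := by
  have hle : zP h hp.act ≤ z1s S hp.act := fun x hx => hx.1
  let f : M × zP h hp.act →+ z1s S hp.act :=
    AddMonoidHom.mk' (fun p => ⟨d0 ρ p.1 + p.2.1,
      (z1s S hp.act).add_mem (KR.d0_Z1 hp.act hp.sm p.1) p.2.2.1⟩) (fun p q => by
        apply Subtype.ext
        funext g
        show d0 ρ (p.1 + q.1) g + (p.2.1 g + q.2.1 g) =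
          d0 ρ p.1 g + p.2.1 g + (d0 ρ q.1 g + q.2.1 g)
        simp only [d0, hp.act.add]
        abel)
  have hf : Function.Surjective f := by
    rintro ⟨x, hx⟩
    obtain ⟨m, hm⟩ := cob_P h hp hx
    refine ⟨(m, ⟨x - d0 ρ m, (z1s S hp.act).sub_mem hx (KR.d0_Z1 hp.act hp.sm m),
      fun p hpp => ?_⟩), ?_⟩
    · rw [Pi.sub_apply, hm p hpp, sub_self]
    · apply Subtype.ext
      show d0 ρ m + (x - d0 ρ m) = x
      abel
  have hk : Nat.card f.ker = Nat.card (fixP h.P hp.act) := by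
    refine Nat.card_congr ⟨fun p => ⟨p.1.1, fun g hg => ?_⟩, fun n => ⟨(n.1, ⟨-d0 ρ n.1, ?_, ?_⟩), ?_⟩,
      fun p => ?_, fun n => rfl⟩
    · have h1 := congrArg (fun y : z1s S hp.act => y.1 g) p.2
      have h2 : d0 ρ p.1.1 g + p.1.2.1 g = 0 := h1
      rw [p.1.2.2.2 g hg, add_zero] at h2
      exact sub_eq_zero.1 h2
    · exact (z1s S hp.act).neg_mem (KR.d0_Z1 hp.act hp.sm n.1)
    · intro g hg
      show -(ρ g n.1 - n.1) = 0
      rw [n.2 g hg, sub_self, neg_zero]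
    · apply Subtype.ext
      show d0 ρ n.1 + -d0 ρ n.1 = 0
      exact add_neg_cancel _
    · apply Subtype.ext
      refine Prod.ext rfl (Subtype.ext ?_)
      have h1 := congrArg (fun y : z1s S hp.act => y.1) p.2
      have h2 : d0 ρ p.1.1 + p.1.2.1 = 0 := h1
      show -d0 ρ p.1.1 = p.1.2.1
      exact neg_eq_of_add_eq_zero_right h2
  have h1 := AddSubgroup.card_eq_card_quotient_mul_card_addSubgroup f.ker
  have h2 : Nat.card ((M × zP h hp.act) ⧸ f.ker) = Nat.card (z1s S hp.act) :=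
    Nat.card_congr (QuotientAddGroup.quotientKerEquivOfSurjective f hf).toEquiv
  rw [h2, hk, Nat.card_prod] at h1
  rw [h1, mul_comm]

/-- the relation map on pairs of elements fixed by `P` -/
noncomputable def relM (h : TameF S χ a σ τ l I) (hr : IsAct ρ) :
    fixP h.P hr × fixP h.P hr →+ M :=
  AddMonoidHom.mk' (fun p => (p.1.1 - ρ (τ ^ l) p.1.1) +
      (ρ σ p.2.1 - ∑ i ∈ Finset.range l, ρ (τ ^ i) p.2.1)) (fun p q => by
    show (p.1.1 + q.1.1 - ρ (τ ^ l) (p.1.1 + q.1.1)) +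
      (ρ σ (p.2.1 + q.2.1) - ∑ i ∈ Finset.range l, ρ (τ ^ i) (p.2.1 + q.2.1)) = _
    simp only [hr.add, Finset.sum_add_distrib]
    abel)

theorem relM_apply (h : TameF S χ a σ τ l I) (hr : IsAct ρ) (u v : fixP h.P hr) :
    relM h hr (u, v) = (u.1 - ρ (τ ^ l) u.1) +
      (ρ σ v.1 - ∑ i ∈ Finset.range l, ρ (τ ^ i) v.1) := rfl

theorem fixP_stab (h : TameF S χ a σ τ l I) (hr : IsAct ρ) {m : M} (hm : m ∈ fixP h.P hr) (g : D) :
    ρ g m ∈ fixP h.P hr := by
  intro p hp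
  have h2 : g⁻¹ * p * g ∈ h.P := by
    have := h.P_normal.conj_mem p hp g⁻¹
    rwa [inv_inv] at this
  rw [← hr.mul, show p * g = g * (g⁻¹ * p * g) by group, hr.mul, hm _ h2]

theorem relM_mem (h : TameF S χ a σ τ l I) (hr : IsAct ρ) (p : fixP h.P hr × fixP h.P hr) :
    relM h hr p ∈ fixP h.P hr := by
  refine (fixP h.P hr).add_mem ((fixP h.P hr).sub_mem p.1.2 (fixP_stab h hr p.1.2 _))
    ((fixP h.P hr).sub_mem (fixP_stab h hr p.2.2 _) (sum_mem fun i _ => fixP_stab h hr p.2.2 _))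

theorem card_zP_le (h : TameF S χ a σ τ l I) (hr : IsAct ρ) :
    Nat.card (zP h hr) * Nat.card (relM h hr).range ≤
      Nat.card (fixP h.P hr) * Nat.card (fixP h.P hr) := by
  have h1 := AddSubgroup.card_eq_card_quotient_mul_card_addSubgroup (relM h hr).ker
  have h2 : Nat.card ((fixP h.P hr × fixP h.P hr) ⧸ (relM h hr).ker) = Nat.card (relM h hr).range :=
    Nat.card_congr (QuotientAddGroup.quotientKerEquivRange (relM h hr)).toEquiv
  rw [h2, Nat.card_prod] at h1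
  rw [h1, mul_comm]
  refine Nat.mul_le_mul_left _ ?_
  have key : ∀ x : zP h hr, ((⟨x.1 σ, zP_fix x.2 σ⟩, ⟨x.1 τ, zP_fix x.2 τ⟩) :
      fixP h.P hr × fixP h.P hr) ∈ (relM h hr).ker := by
    rintro ⟨x, hx⟩
    obtain ⟨p, hp, e⟩ := h.rel
    have e1 : x (σ * τ) = x (τ ^ l * σ) := by rw [e, zP_mul hx _ hp]
    rw [hx.1.2, hx.1.2, coc_pow hr hx.1.2 τ l] at e1
    rw [AddMonoidHom.mem_ker, relM_apply]
    show (x σ - ρ (τ ^ l) (x σ)) + (ρ σ (x τ) - ∑ i ∈ Finset.range l, ρ (τ ^ i) (x τ)) = 0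
    have e2 : x σ = ∑ i ∈ Finset.range l, ρ (τ ^ i) (x τ) + ρ (τ ^ l) (x σ) - ρ σ (x τ) :=
      eq_sub_of_add_eq e1
    rw [sub_add_sub_comm, e1]
    abel
  refine Nat.card_le_card_of_injective
    (fun x => (⟨(⟨x.1 σ, zP_fix x.2 σ⟩, ⟨x.1 τ, zP_fix x.2 τ⟩), key x⟩ : (relM h hr).ker)) ?_
  intro x y hxy
  have e := congrArg Subtype.val hxy
  have e1 : x.1 σ = y.1 σ := congrArg (fun p : fixP h.P hr × fixP h.P hr => p.1.1) e
  have e2 : x.1 τ = y.1 τ := congrArg (fun p : fixP h.P hr × fixP h.P hr => p.2.1) e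
  apply Subtype.ext
  have e3 := zP_det (x := x.1 - y.1) ((zP h hr).sub_mem x.2 y.2)
    (by rw [Pi.sub_apply, e1, sub_self]) (by rw [Pi.sub_apply, e2, sub_self])
  exact sub_eq_zero.1 e3

end count

end Pool.Agent.Work.MP_787500_nt.QL
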