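import Mathlib
import Pool.Agent.Work.MP_787500_nt.QL.CountH

/-!
The number of 1-cocycles of a tame local group with values in a finite module `M` of 2-power order is at most
`|M|` times the number of fixed elements of the dual of `M`, continued.
-/

set_option autoImplicit false
set_option linter.unusedSectionVars false

namespace Pool.Agent.Work.MP_787500_nt.QL

open Pool.Agent.Work.MP_787500_nt.GP (A0 hf IsAct d0 d1 d2 tw cup11)
open Pool.Agent.Work.MP_787500_nt.KR (FSys Sm1 Sm2 Z1 Z2 B2 Smooth IsChar LocH Pair LDual z1s b1s mem_z1s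
  odd_cancel)
open Pool.Agent.Work.MP_787500_nt.LB (Pr)

variable {D : Type*} [Group D] {S : FSys D} {χ a : D → ℤ_[2]} {σ τ : D} {l : ℕ} {I : Subgroup D}
  {M M' : Type*} [AddCommGroup M] [AddCommGroup M'] {ρ : D → M → M} {ρ' : D → M' → M'}
  {B : M →+ M' →+ A0} [Finite M] [Finite M']

/-- annihilators in a perfect pair -/
theorem card_perpP (hp : Pair S χ ρ ρ' B) (X : AddSubgroup M) :
    Nat.card X * Nat.card (GP.perpL B X) = Nat.card M' := by
  have h1 := GP.card_perp B X (fun m hm => by rw [hp.nd m hm]; exact X.zero_mem)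
  have h2 : GP.perpL B.flip ⊤ = ⊥ := by
    rw [eq_bot_iff]
    intro m hm
    exact hp.nd m fun m' => hm m' trivial
  rw [h2, AddSubgroup.card_bot, mul_one] at h1
  exact h1

/-- an element of `M'` that is orthogonal to the relations is, modulo the annihilator of `M^P`, fixed -/
theorem exists_fix (h : TameF S χ a σ τ l I) (hp : Pair S χ ρ ρ' B) {m' : M'}
    (hm : m' ∈ GP.perpL B (relM h hp.act).range) :
    ∃ y ∈ fixG hp.act', m' - y ∈ GP.perpL B (fixP h.P hp.act) := by
  obtain ⟨W₁, hW₁, t1⟩ := hp.sm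
  obtain ⟨W₂, hW₂, t2⟩ := hp.sm'
  set W := W₁ ⊓ W₂ with hWdef
  have hW : S.mem W := S.inf hW₁ hW₂
  have hn := S.normal hW
  have tW : ∀ w ∈ W, ∀ m, ρ w m = m := fun w hw => t1 w hw.1
  have tW' : ∀ w ∈ W, ∀ m, ρ' w m = m := fun w hw => t2 w hw.2
  have hodd := h.odd_quot hW
  have hfin : Finite (h.P ⧸ W.subgroupOf h.P) := Nat.finite_of_card_ne_zero fun h0 => by
    rw [h0] at hodd
    exact absurd hodd (by decide)
  have := Fintype.ofFinite (h.P ⧸ W.subgroupOf h.P)
  rw [Nat.card_eq_fintype_card] at hodd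
  obtain ⟨c, hc, hc'⟩ := odd_cancel hp hodd
  set y : M' := c • sumP h W ρ' m' with hy
  have hyP : y ∈ fixP h.P hp.act' := (fixP h.P hp.act').nsmul_mem (sumP_fix h hp.act' tW' m') c
  -- `m'` and `y` agree on `M^P`
  have hBy : ∀ n ∈ fixP h.P hp.act, B n y = B n m' := by
    intro n hn'
    rw [hy, map_nsmul, B_sumP h hp hn', smul_smul, ← map_nsmul, hc']
  have hyX : ∀ x, x ∈ (relM h hp.act).range → B x y = 0 := by
    rintro x ⟨p, rfl⟩
    rw [hBy _ (relM_mem h hp.act p)]
    exact hm _ ⟨p, rfl⟩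
  -- it suffices to test elements fixed by `P` on `M^P`
  have test : ∀ z ∈ fixP h.P hp.act', (∀ n ∈ fixP h.P hp.act, B n z = 0) → z = 0 := by
    intro z hz h0
    refine hp.nd' z fun m => ?_
    have e := h0 _ ((fixP h.P hp.act).nsmul_mem (sumP_fix h hp.act tW m) c)
    rw [map_nsmul, AddMonoidHom.nsmul_apply, B_sumP' h hp hz, smul_smul,
      ← AddMonoidHom.nsmul_apply, ← map_nsmul, hc] at e
    exact e
  -- `τ ^ l` fixes `y`
  have inv_act : ∀ (g : D) (m : M'), ρ' g (ρ' g⁻¹ m) = m := fun g m => by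
    rw [← hp.act'.mul, mul_inv_cancel, hp.act'.one]
  have k1 : ρ' (τ ^ l)⁻¹ y - y = 0 := by
    refine test _ ((fixP h.P hp.act').sub_mem (fixP_stab h hp.act' hyP _) hyP) fun n hn' => ?_
    have e := hyX _ ⟨((⟨n, hn'⟩, 0) : fixP h.P hp.act × fixP h.P hp.act), rfl⟩
    rw [relM_apply] at e
    have e2 : ρ σ ((0 : fixP h.P hp.act) : M) -
        ∑ i ∈ Finset.range l, ρ (τ ^ i) ((0 : fixP h.P hp.act) : M) = 0 := by
      rw [ZeroMemClass.coe_zero, hp.act.zero, Finset.sum_eq_zero fun i _ => hp.act.zero _, sub_zero]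
    rw [e2, add_zero, map_sub, AddMonoidHom.sub_apply] at e
    have e3 := hp.eqv (τ ^ l) n (ρ' (τ ^ l)⁻¹ y)
    rw [inv_act, (h.tau_pow l).1, one_smul] at e3
    rw [map_sub, ← e3]
    show B (ρ (τ ^ l) n) y - B n y = 0
    rw [← neg_sub, neg_eq_zero]
    exact e
  have k2 : ρ' (τ ^ l) y = y := by
    rw [sub_eq_zero] at k1
    have := congrArg (ρ' (τ ^ l)) k1
    rw [inv_act] at this
    exact this.symm
  -- `τ` fixes `y`
  obtain ⟨n, hnn⟩ := h.sep W hW
  have k3 : ρ' (τ ^ 2 ^ n) y = y := by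
    obtain ⟨p, hp1, hp2, hp3⟩ := hnn (τ ^ 2 ^ n) (by
      rw [(h.tau_pow _).1, sub_self]
      exact dvd_zero _) (by
      rw [(h.tau_pow _).2]
      push_cast
      exact dvd_rfl)
    have e : τ ^ 2 ^ n = p * (p⁻¹ * τ ^ 2 ^ n) := by group
    rw [e, hp.act'.mul, tW' _ hp3]
    exact hyP p ⟨hp1, hp2⟩
  have kpow : ∀ (g : D), ρ' g y = y → ∀ k : ℕ, ρ' (g ^ k) y = y := by
    intro g hg k
    induction k with
    | zero => rw [pow_zero, hp.act'.one]
    | succ k ih => rw [pow_succ, hp.act'.mul, hg, ih]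
  have k4 : ρ' τ y = y := by
    have hco : Nat.Coprime l (2 ^ (n + 1)) := (Nat.coprime_two_right.2 h.lodd).pow_right (n + 1)
    obtain ⟨b, hb⟩ := Nat.exists_mul_mod_eq_one_of_coprime hco (Nat.one_lt_two_pow (by omega))
    have e : l * b = 2 ^ (n + 1) * (l * b / 2 ^ (n + 1)) + 1 := by
      have h3 := Nat.div_add_mod (l * b) (2 ^ (n + 1))
      rw [hb.2] at h3
      exact h3.symm
    have e1 := kpow _ k2 b
    rw [← pow_mul, e, pow_succ, hp.act'.mul] at e1
    have e2 := kpow _ k3 (2 * (l * b / 2 ^ (n + 1)))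
    have e3 : (τ ^ 2 ^ n) ^ (2 * (l * b / 2 ^ (n + 1))) =
        τ ^ (2 ^ (n + 1) * (l * b / 2 ^ (n + 1))) := by
      rw [← pow_mul, pow_succ, mul_assoc]
    rw [e3] at e2
    have e4 : ρ' (τ ^ (2 ^ (n + 1) * (l * b / 2 ^ (n + 1)))) (ρ' τ y - y) = 0 := by
      rw [KR.IsAct.sub' hp.act', e1, e2, sub_self]
    have e5 := congrArg (ρ' (τ ^ (2 ^ (n + 1) * (l * b / 2 ^ (n + 1))))⁻¹) e4
    rw [← hp.act'.mul, inv_mul_cancel, hp.act'.one, hp.act'.zero] at e5
    exact sub_eq_zero.1 e5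
  -- `σ` fixes `y`
  obtain ⟨c₂, hc₂, -⟩ := odd_cancel hp h.lodd
  have k5 : ρ' σ⁻¹ y - y = 0 := by
    refine test _ ((fixP h.P hp.act').sub_mem (fixP_stab h hp.act' hyP _) hyP) fun n hn' => ?_
    have hn2 : c₂ • n ∈ fixP h.P hp.act := (fixP h.P hp.act).nsmul_mem hn' c₂
    have e := hyX _ ⟨((0, ⟨c₂ • n, hn2⟩) : fixP h.P hp.act × fixP h.P hp.act), rfl⟩
    rw [relM_apply] at e
    have e2 : ((0 : fixP h.P hp.act) : M) - ρ (τ ^ l) ((0 : fixP h.P hp.act) : M) = 0 := by
      rw [ZeroMemClass.coe_zero, hp.act.zero, sub_zero]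
    rw [e2, zero_add, map_sub, AddMonoidHom.sub_apply, map_sum, AddMonoidHom.finset_sum_apply] at e
    have e3 : ∀ i ∈ Finset.range l, B (ρ (τ ^ i) (c₂ • n)) y = B (c₂ • n) y := by
      intro i _
      have e4 := hp.eqv (τ ^ i) (c₂ • n) y
      rw [kpow _ k4, (h.tau_pow i).1, one_smul] at e4
      exact e4
    rw [Finset.sum_congr rfl e3, Finset.sum_const, Finset.card_range] at e
    have e5 := hp.eqv σ (c₂ • n) (ρ' σ⁻¹ y)
    rw [inv_act, h.σχ, Nat.cast_smul_eq_nsmul] at e5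
    have e6 : B (ρ σ (c₂ • n)) y - l • B (c₂ • n) y = 0 := e
    rw [e5, ← smul_sub, ← map_sub, ← AddMonoidHom.nsmul_apply, ← map_nsmul, smul_smul,
      mul_comm, hc₂] at e6
    exact e6
  have k6 : ρ' σ y = y := by
    rw [sub_eq_zero] at k5
    have := congrArg (ρ' σ) k5
    rw [inv_act] at this
    exact this.symm
  refine ⟨y, fun g => ?_, fun n hn' => ?_⟩
  · obtain ⟨i, j, p, hpp, hg⟩ := h.gen hW g
    have e : g = (σ ^ i * τ ^ j * p) * ((σ ^ i * τ ^ j * p)⁻¹ * g) := by group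
    rw [e, hp.act'.mul, tW' _ hg, hp.act'.mul, hyP p hpp, hp.act'.mul, kpow _ k4, kpow _ k6]
  · rw [map_sub, hBy n hn', sub_self]

theorem card_fixP_le (h : TameF S χ a σ τ l I) (hp : Pair S χ ρ ρ' B) :
    Nat.card (fixP h.P hp.act) ≤ Nat.card (relM h hp.act).range * Nat.card (fixG hp.act') := by
  have e1 := card_perpP hp (relM h hp.act).range
  have e2 := card_perpP hp (fixP h.P hp.act)
  have h1 : Nat.card (GP.perpL B (relM h hp.act).range) ≤
      Nat.card (fixG hp.act') * Nat.card (GP.perpL B (fixP h.P hp.act)) := by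
    rw [← Nat.card_prod]
    choose y hy1 hy2 using fun m' : GP.perpL B (relM h hp.act).range => exists_fix h hp m'.2
    refine Nat.card_le_card_of_injective
      (fun m' => ((⟨y m', hy1 m'⟩ : fixG hp.act'), (⟨m'.1 - y m', hy2 m'⟩ :
        GP.perpL B (fixP h.P hp.act)))) fun m₁ m₂ hm => ?_
    have h2 : y m₁ = y m₂ := congrArg (fun p => p.1.1) hm
    have h3 : m₁.1 - y m₁ = m₂.1 - y m₂ := congrArg (fun p => p.2.1) hm
    apply Subtype.ext
    rw [h2] at h3
    exact sub_left_injective h3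
  have hpos : 0 < Nat.card (GP.perpL B (fixP h.P hp.act)) := Nat.card_pos
  refine Nat.le_of_mul_le_mul_right ?_ hpos
  calc Nat.card (fixP h.P hp.act) * Nat.card (GP.perpL B (fixP h.P hp.act))
      = Nat.card (relM h hp.act).range * Nat.card (GP.perpL B (relM h hp.act).range) := by
        rw [e2, e1]
    _ ≤ Nat.card (relM h hp.act).range *
        (Nat.card (fixG hp.act') * Nat.card (GP.perpL B (fixP h.P hp.act))) :=
        Nat.mul_le_mul_left _ h1
    _ = _ := by ring

/-- THE NUMBER OF COCYCLES. -/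
theorem card_z1s_le (h : TameF S χ a σ τ l I) (hp : Pair S χ ρ ρ' B)
    (hfin : Finite {x : D → M // Z1 S ρ x}) :
    Nat.card (z1s S hp.act) ≤ Nat.card M * Nat.card (fixG hp.act') := by
  have hf : Finite (z1s S hp.act) := hfin
  have e1 := card_zP h hp hf
  have e2 := card_zP_le h hp.act
  have e3 := card_fixP_le h hp
  have p1 : 0 < Nat.card (fixP h.P hp.act) := Nat.card_pos
  have p2 : 0 < Nat.card (relM h hp.act).range := Nat.card_pos
  have e4 : Nat.card (zP h hp.act) ≤ Nat.card (fixP h.P hp.act) * Nat.card (fixG hp.act') := by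
    refine Nat.le_of_mul_le_mul_right (e2.trans ?_) p2
    calc Nat.card (fixP h.P hp.act) * Nat.card (fixP h.P hp.act)
        ≤ Nat.card (fixP h.P hp.act) *
          (Nat.card (relM h hp.act).range * Nat.card (fixG hp.act')) := Nat.mul_le_mul_left _ e3
      _ = _ := by ring
  refine Nat.le_of_mul_le_mul_left ?_ p1
  calc Nat.card (fixP h.P hp.act) * Nat.card (z1s S hp.act)
      = Nat.card M * Nat.card (zP h hp.act) := e1.symm
    _ ≤ Nat.card M * (Nat.card (fixP h.P hp.act) * Nat.card (fixG hp.act')) :=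
      Nat.mul_le_mul_left _ e4
    _ = _ := by ring

/-- the number of coboundaries -/
theorem card_b1s (hp : Pair S χ ρ ρ' B) :
    Nat.card (fixG hp.act) * Nat.card (b1s hp.act) = Nat.card M := by
  let f : M →+ b1s hp.act := AddMonoidHom.mk' (fun m => ⟨d0 ρ m, m, rfl⟩) (fun m m' => by
    apply Subtype.ext
    funext g
    show ρ g (m + m') - (m + m') = ρ g m - m + (ρ g m' - m')
    rw [hp.act.add]
    abel)
  have hf : Function.Surjective f := by
    rintro ⟨x, m, rfl⟩
    exact ⟨m, rfl⟩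
  have hk : Nat.card f.ker = Nat.card (fixG hp.act) := by
    refine Nat.card_congr ⟨fun m => ⟨m.1, fun g => ?_⟩, fun m => ⟨m.1, ?_⟩, fun m => rfl, fun m => rfl⟩
    · have h1 := congrArg (fun y : b1s hp.act => y.1 g) m.2
      have h2 : ρ g m.1 - m.1 = 0 := h1
      exact sub_eq_zero.1 h2
    · apply Subtype.ext
      funext g
      show ρ g m.1 - m.1 = 0
      rw [m.2 g, sub_self]
  have h1 := AddSubgroup.card_eq_card_quotient_mul_card_addSubgroup f.ker
  have h2 : Nat.card (M ⧸ f.ker) = Nat.card (b1s hp.act) :=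
    Nat.card_congr (QuotientAddGroup.quotientKerEquivOfSurjective f hf).toEquiv
  rw [h2, hk] at h1
  rw [h1, mul_comm]

/-- THE NUMBER OF CLASSES: at most the product of the numbers of fixed elements of `M` and of its dual. -/
theorem h1_le (h : TameF S χ a σ τ l I) (hp : Pair S χ ρ ρ' B)
    (hfin : Finite {x : D → M // Z1 S ρ x}) :
    KR.h1 S hp.act ≤ Nat.card (fixG hp.act) * Nat.card (fixG hp.act') := by
  have hf : Finite (z1s S hp.act) := hfin
  have e1 := KR.card_z1s hp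
  have e2 := card_z1s_le h hp hfin
  have e3 := card_b1s hp
  have hpos : 0 < Nat.card (b1s hp.act) := by
    refine Nat.pos_of_ne_zero fun h0 => ?_
    rw [h0, mul_zero] at e3
    have : 0 < Nat.card M := Nat.card_pos
    omega
  refine Nat.le_of_mul_le_mul_left ?_ hpos
  calc Nat.card (b1s hp.act) * KR.h1 S hp.act = Nat.card (z1s S hp.act) := e1
    _ ≤ Nat.card M * Nat.card (fixG hp.act') := e2
    _ = Nat.card (b1s hp.act) * (Nat.card (fixG hp.act) * Nat.card (fixG hp.act')) := by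
      rw [← e3]
      ring

end Pool.Agent.Work.MP_787500_nt.QL
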