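import Mathlib
import Pool.Agent.Work.MP_787500_nt.QL.CountL

/-!
The number of unramified cocycles of a tame local group with values in a finite module `M` is `|M|`.
-/

set_option autoImplicit false
set_option linter.unusedSectionVars false

namespace Pool.Agent.Work.MP_787500_nt.QL

open Pool.Agent.Work.MP_787500_nt.GP (A0 hf IsAct d0 d1 d2 tw cup11)
open Pool.Agent.Work.MP_787500_nt.KR (FSys Sm1 Sm2 Z1 Z2 B2 Smooth IsChar LocH Pair LDual z1s b1s mem_z1s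
  odd_cancel)
open Pool.Agent.Work.MP_787500_nt.LB (Pr)

variable {D : Type*} [Group D] {S : FSys D} {χ a : D → ℤ_[2]} {σ τ : D} {l : ℕ} {I : Subgroup D}
  {M M' : Type*} [AddCommGroup M] [AddCommGroup M'] {ρ : D → M → M} {ρ' : D → M' → M'}
  {B : M →+ M' →+ A0}

section groups

/-- `σ` is a generator modulo `I` and `W` -/
theorem TameF.frobJ (h : TameF S χ a σ τ l I) {W : Subgroup D} (hW : S.mem W) (g : D) :
    ∃ i : ℕ, (σ ^ i)⁻¹ * g ∈ I ⊔ W := by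
  obtain ⟨i, n, hn, hg⟩ := h.frob g W hW
  refine ⟨i, ?_⟩
  have e : (σ ^ i)⁻¹ * g = n * ((σ ^ i * n)⁻¹ * g) := by group
  rw [e]
  exact Subgroup.mul_mem_sup hn hg

/-- for small `W` the order of `σ` modulo `I` and `W` is divisible by a large power of 2 -/
theorem TameF.dvdJ (h : TameF S χ a σ τ l I) (k : ℕ) : ∃ W, S.mem W ∧
    ∀ i : ℕ, σ ^ i ∈ I ⊔ W → 2 ^ k ∣ i := by
  obtain ⟨B', e, -, hke, -, h2⟩ := LB.exists_ord h.lodd h.lt k
  obtain ⟨W, hW, h3⟩ := h.char.cont B'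
  refine ⟨W, hW, fun i hi => ?_⟩
  have hn := h.In
  obtain ⟨n, hn1, w, hw, e1⟩ := Subgroup.mem_sup_of_normal_left.1 hi
  have h4 : χ (σ ^ i) = χ w := by rw [← e1, h.char.mul, h.Iχ n hn1, one_mul]
  have h5 := h3 1 w hw
  rw [one_mul, h.char.one] at h5
  rw [(h.sig_pow i).1] at h4
  rw [← h4] at h5
  exact (pow_dvd_pow 2 hke).trans (h2 i h5)

/-- the order of `σ` modulo `I` and `W` -/
theorem TameF.ordJ (h : TameF S χ a σ τ l I) {W : Subgroup D} (hW : S.mem W) :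
    ∃ r : ℕ, 0 < r ∧ σ ^ r ∈ I ⊔ W ∧ ∀ i : ℕ, σ ^ i ∈ I ⊔ W → r ∣ i := by
  have hn := h.In
  have hn' := S.normal hW
  have hJ : (I ⊔ W).Normal := inferInstance
  have hfi : (I ⊔ W).index ≠ 0 := fun h0 =>
    S.index hW (Nat.eq_zero_of_zero_dvd (h0 ▸ Subgroup.index_dvd_of_le le_sup_right))
  have hfin : Finite (D ⧸ (I ⊔ W)) := Nat.finite_of_card_ne_zero hfi
  refine ⟨orderOf ((σ : D) : D ⧸ (I ⊔ W)), orderOf_pos _, ?_, fun i hi => ?_⟩
  · have := pow_orderOf_eq_one ((σ : D) : D ⧸ (I ⊔ W))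
    rw [← QuotientGroup.mk_pow, QuotientGroup.eq_one_iff] at this
    exact this
  · rw [orderOf_dvd_iff_pow_eq_one, ← QuotientGroup.mk_pow, QuotientGroup.eq_one_iff]
    exact hi

theorem two_adic {r c k : ℕ} (hr : 0 < r) (h : 2 ^ (k + r) ∣ r * c) : 2 ^ k ∣ c := by
  obtain ⟨t, u, hu, e⟩ := Nat.exists_eq_two_pow_mul_odd hr.ne'
  have hu0 : 0 < u := hu.pos
  have ht : t ≤ r := by
    have h1 : t < 2 ^ t := Nat.lt_two_pow_self
    have h2 : 2 ^ t ≤ r := by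
      rw [e]
      exact Nat.le_mul_of_pos_right _ hu0
    omega
  have h3 : 2 ^ (k + t) ∣ r * c := (pow_dvd_pow 2 (by omega)).trans h
  rw [e, pow_add, mul_comm (2 ^ k), mul_assoc] at h3
  have h4 : 2 ^ k ∣ u * c := Nat.dvd_of_mul_dvd_mul_left (by positivity) h3
  exact (Nat.Coprime.pow_left k ((Nat.coprime_two_left).2 hu)).dvd_of_dvd_mul_left h4

/-- Let `W` be a member of the system. For every `k` there is a smaller member `W'` such that all `i` with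
`σ ^ i ∈ I W'` are multiples of `2 ^ k r`, where `r` is the order of `σ` modulo `I W`. -/
theorem TameF.exists_W (h : TameF S χ a σ τ l I) {W : Subgroup D} (hW : S.mem W) (k : ℕ) :
    ∃ r : ℕ, 0 < r ∧ σ ^ r ∈ I ⊔ W ∧ ∃ W', S.mem W' ∧ W' ≤ W ∧
      ∀ i : ℕ, σ ^ i ∈ I ⊔ W' → ∃ c, i = r * (2 ^ k * c) := by
  obtain ⟨r, hr, h1, h2⟩ := h.ordJ hW
  obtain ⟨W₂, hW₂, h3⟩ := h.dvdJ (k + r)
  refine ⟨r, hr, h1, W ⊓ W₂, S.inf hW hW₂, inf_le_left, fun i hi => ?_⟩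
  have h4 := h2 i (sup_le_sup_left inf_le_left I hi)
  have h5 := h3 i (sup_le_sup_left inf_le_right I hi)
  obtain ⟨c, rfl⟩ := h4
  obtain ⟨d, rfl⟩ := two_adic hr h5
  exact ⟨d, rfl⟩

end groups

section sums

variable (hr : IsAct ρ)

/-- the values of an unramified cocycle with `x σ = v` -/
noncomputable def tS (ρ : D → M → M) (σ : D) (v : M) (i : ℕ) : M := ∑ k ∈ Finset.range i, ρ (σ ^ k) v

include hr in
theorem tS_add (v : M) (i j : ℕ) : tS ρ σ v (i + j) = tS ρ σ v i + ρ (σ ^ i) (tS ρ σ v j) := by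
  unfold tS
  rw [Finset.sum_range_add, KR.IsAct.sum' hr]
  congr 1
  exact Finset.sum_congr rfl fun k _ => by rw [pow_add, hr.mul]

include hr in
theorem tS_mul {v : M} {r : ℕ} (h1 : ρ (σ ^ r) (tS ρ σ v r) = tS ρ σ v r) (c : ℕ) :
    ρ (σ ^ r) (tS ρ σ v (r * c)) = tS ρ σ v (r * c) ∧ tS ρ σ v (r * c) = c • tS ρ σ v r := by
  induction c with
  | zero =>
    have e : tS ρ σ v (r * 0) = 0 := by
      unfold tS
      simp
    rw [e, hr.zero, zero_smul]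
    exact ⟨rfl, rfl⟩
  | succ c ih =>
    have e : tS ρ σ v (r * (c + 1)) = tS ρ σ v r + tS ρ σ v (r * c) := by
      rw [mul_add, mul_one, add_comm, tS_add hr, ih.1]
    rw [e]
    refine ⟨by rw [hr.add, h1, ih.1], ?_⟩
    rw [ih.2, succ_nsmul, add_comm]

end sums

section fix

variable (hr : IsAct ρ) (hIn : I.Normal)

include hIn in
theorem fixI_stab {m : M} (hm : m ∈ fixP I hr) (g : D) : ρ g m ∈ fixP I hr := by
  intro p hp
  have h2 : g⁻¹ * p * g ∈ I := by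
    have := hIn.conj_mem p hp g⁻¹
    rwa [inv_inv] at this
  rw [← hr.mul, show p * g = g * (g⁻¹ * p * g) by group, hr.mul, hm _ h2]

theorem tS_fix (hIn : I.Normal) {v : M} (hv : v ∈ fixP I hr) (i : ℕ) : tS ρ σ v i ∈ fixP I hr :=
  sum_mem fun _ _ => fixI_stab hr hIn hv _

/-- an element of `I W` acts trivially on the elements fixed by `I` -/
theorem act_J {W : Subgroup D} (hIn : I.Normal) (hW : ∀ w ∈ W, ∀ m, ρ w m = m) {m : M}
    (hm : m ∈ fixP I hr) {g : D} (hg : g ∈ I ⊔ W) : ρ g m = m := by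
  obtain ⟨n, hn, w, hw, rfl⟩ := Subgroup.mem_sup_of_normal_left.1 hg
  rw [hr.mul, hW w hw, hm n hn]

end fix

/-- existence of unramified cocycles -/
theorem exists_ur (h : TameF S χ a σ τ l I) (hr : IsAct ρ) (hs : Smooth S ρ) {k : ℕ}
    (hk : ∀ m : M, (2 ^ k) • m = 0) {v : M} (hv : v ∈ fixP I hr) :
    ∃ x, Z1 S ρ x ∧ (∀ i ∈ I, x i = 0) ∧ x σ = v := by
  obtain ⟨W, hW, tW⟩ := hs
  have hIn := h.In
  obtain ⟨r, hr0, h1, W', hW', hle, h2⟩ := h.exists_W hW k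
  have tW' : ∀ w ∈ W', ∀ m, ρ w m = m := fun w hw => tW w (hle hw)
  have hn' := S.normal hW'
  have hJ : (I ⊔ W').Normal := inferInstance
  have k1 : ρ (σ ^ r) (tS ρ σ v r) = tS ρ σ v r := act_J hr hIn tW (tS_fix hr hIn hv r) h1
  have k2 : ∀ i : ℕ, σ ^ i ∈ I ⊔ W' → tS ρ σ v i = 0 := by
    intro i hi
    obtain ⟨c, rfl⟩ := h2 i hi
    rw [(tS_mul hr k1 _).2, mul_comm, mul_smul, hk, smul_zero]
  have k3 : ∀ i j : ℕ, i ≤ j → (σ ^ i)⁻¹ * σ ^ j ∈ I ⊔ W' → tS ρ σ v i = tS ρ σ v j := by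
    intro i j hij hJ'
    obtain ⟨m, rfl⟩ := Nat.exists_eq_add_of_le hij
    rw [pow_add, inv_mul_cancel_left] at hJ'
    rw [tS_add hr, k2 m hJ', hr.zero, add_zero]
  have k4 : ∀ i j : ℕ, (σ ^ i)⁻¹ * σ ^ j ∈ I ⊔ W' → tS ρ σ v i = tS ρ σ v j := by
    intro i j hJ'
    rcases le_total i j with hij | hij
    · exact k3 i j hij hJ'
    · refine (k3 j i hij ?_).symm
      have := (I ⊔ W').inv_mem hJ'
      rwa [mul_inv_rev, inv_inv] at this
  choose ι hι using fun g : D => h.frobJ hW' g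
  let x : D → M := fun g => tS ρ σ v (ι g)
  have k5 : ∀ (g : D) (i : ℕ), (σ ^ i)⁻¹ * g ∈ I ⊔ W' → x g = tS ρ σ v i := by
    intro g i hg
    refine k4 (ι g) i ?_
    have h3 := (I ⊔ W').mul_mem (hι g) ((I ⊔ W').inv_mem hg)
    have e : (σ ^ ι g)⁻¹ * g * ((σ ^ i)⁻¹ * g)⁻¹ = (σ ^ ι g)⁻¹ * σ ^ i := by group
    rwa [e] at h3
  refine ⟨x, ⟨⟨W', hW', fun g w hw => ?_⟩, fun g g' => ?_⟩, fun i hi => ?_, ?_⟩
  · refine k5 (g * w) (ι g) ?_
    rw [← mul_assoc]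
    exact (I ⊔ W').mul_mem (hι g) (Subgroup.mem_sup_right hw)
  · have h4 : x (g * g') = tS ρ σ v (ι g + ι g') := by
      refine k5 _ _ ?_
      have e : (σ ^ (ι g + ι g'))⁻¹ * (g * g') =
          ((σ ^ ι g')⁻¹ * ((σ ^ ι g)⁻¹ * g) * ((σ ^ ι g')⁻¹)⁻¹) * ((σ ^ ι g')⁻¹ * g') := by
        rw [pow_add]
        group
      rw [e]
      exact (I ⊔ W').mul_mem (hJ.conj_mem _ (hι g) _) (hι g')
    have h5 : ρ g (x g') = ρ (σ ^ ι g) (x g') := by
      have e : g = σ ^ ι g * ((σ ^ ι g)⁻¹ * g) := by group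
      conv_lhs => rw [e]
      rw [hr.mul, act_J hr hIn tW' (tS_fix hr hIn hv _) (hι g)]
    rw [h4, tS_add hr, h5]
  · have h6 := k5 i 0 (by
      rw [pow_zero, inv_one, one_mul]
      exact Subgroup.mem_sup_left hi)
    rw [h6]
    unfold tS
    simp
  · have h6 := k5 σ 1 (by
      rw [pow_one, inv_mul_cancel]
      exact one_mem _)
    rw [h6]
    unfold tS
    rw [Finset.sum_range_one, pow_zero, hr.one]

/-- the cocycles that vanish on `I` -/
def zI (S : FSys D) (I : Subgroup D) (hr : IsAct ρ) : AddSubgroup (D → M) where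
  carrier := {x | Z1 S ρ x ∧ ∀ p ∈ I, x p = 0}
  add_mem' := by
    rintro x y ⟨h1, h2⟩ ⟨h1', h2'⟩
    refine ⟨(z1s S hr).add_mem h1 h1', fun p hp => ?_⟩
    rw [Pi.add_apply, h2 p hp, h2' p hp, add_zero]
  zero_mem' := ⟨(z1s S hr).zero_mem, fun _ _ => rfl⟩
  neg_mem' := by
    rintro x ⟨h1, h2⟩
    refine ⟨(z1s S hr).neg_mem h1, fun p hp => ?_⟩
    rw [Pi.neg_apply, h2 p hp, neg_zero]

theorem zI_mul {hr : IsAct ρ} {x : D → M} (hx : x ∈ zI S I hr) (g : D) {p : D}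
    (hp : p ∈ I) : x (g * p) = x g := by
  rw [hx.1.2, hx.2 p hp, hr.zero, add_zero]

theorem zI_fix {hr : IsAct ρ} (hIn : I.Normal) {x : D → M} (hx : x ∈ zI S I hr) (g : D) :
    x g ∈ fixP I hr := by
  intro p hp
  have h1 : x (p * g) = ρ p (x g) := by rw [hx.1.2, hx.2 p hp, zero_add]
  have h2 : g⁻¹ * p * g ∈ I := by
    have := hIn.conj_mem p hp g⁻¹
    rwa [inv_inv] at this
  have h3 : x (p * g) = x g := by
    have e : p * g = g * (g⁻¹ * p * g) := by group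
    rw [e, zI_mul hx _ h2]
  rw [← h1, h3]

theorem card_zI [Finite M] (h : TameF S χ a σ τ l I) (hr : IsAct ρ) (hs : Smooth S ρ) {k : ℕ}
    (hk : ∀ m : M, (2 ^ k) • m = 0) : Nat.card (zI S I hr) = Nat.card (fixP I hr) := by
  refine Nat.card_congr (Equiv.ofBijective (fun x => ⟨x.1 σ, zI_fix h.In x.2 σ⟩) ⟨fun x y hxy => ?_,
    fun v => ?_⟩)
  · have e : x.1 σ = y.1 σ := congrArg Subtype.val hxy
    apply Subtype.ext
    rw [← sub_eq_zero]
    have hz := (zI S I hr).sub_mem x.2 y.2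
    have e' : (x.1 - y.1) σ = 0 := by rw [Pi.sub_apply, e, sub_self]
    funext g
    obtain ⟨W, hW, h3⟩ := hz.1.1
    obtain ⟨i, n, hn, hg⟩ := h.frob g W hW
    have e3 := h3 (σ ^ i * n) _ hg
    rw [mul_inv_cancel_left] at e3
    rw [e3, zI_mul hz _ hn, coc_pow hr hz.1.2, e']
    exact Finset.sum_eq_zero fun k _ => hr.zero _
  · obtain ⟨x, h1, h2, h3⟩ := exists_ur h hr hs hk v.2
    exact ⟨⟨x, h1, h2⟩, Subtype.ext h3⟩

/-- THE NUMBER OF UNRAMIFIED COCYCLES. -/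
theorem card_zur [Finite M] (h : TameF S χ a σ τ l I) (hr : IsAct ρ) (hs : Smooth S ρ) {k : ℕ}
    (hk : ∀ m : M, (2 ^ k) • m = 0) : Nat.card (zur S I hr) = Nat.card M := by
  let f : M × zI S I hr →+ zur S I hr :=
    AddMonoidHom.mk' (fun p => ⟨d0 ρ p.1 + p.2.1,
      (zur S I hr).add_mem ⟨KR.d0_Z1 hr hs p.1, p.1, fun _ _ => rfl⟩
        ⟨p.2.2.1, 0, fun i hi => by rw [p.2.2.2 i hi]; simp [d0, hr.zero]⟩⟩) (fun p q => by
        apply Subtype.ext
        funext g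
        show d0 ρ (p.1 + q.1) g + (p.2.1 g + q.2.1 g) =
          d0 ρ p.1 g + p.2.1 g + (d0 ρ q.1 g + q.2.1 g)
        simp only [d0, hr.add]
        abel)
  have hf : Function.Surjective f := by
    rintro ⟨x, hx, m, hm⟩
    refine ⟨(m, ⟨x - d0 ρ m, (z1s S hr).sub_mem hx (KR.d0_Z1 hr hs m),
      fun p hpp => ?_⟩), ?_⟩
    · rw [Pi.sub_apply, hm p hpp, sub_self]
    · apply Subtype.ext
      show d0 ρ m + (x - d0 ρ m) = x
      abel
  have hk' : Nat.card f.ker = Nat.card (fixP I hr) := by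
    refine Nat.card_congr ⟨fun p => ⟨p.1.1, fun g hg => ?_⟩, fun n => ⟨(n.1, ⟨-d0 ρ n.1, ?_, ?_⟩), ?_⟩,
      fun p => ?_, fun n => rfl⟩
    · have h1 := congrArg (fun y : zur S I hr => y.1 g) p.2
      have h2 : d0 ρ p.1.1 g + p.1.2.1 g = 0 := h1
      rw [p.1.2.2.2 g hg, add_zero] at h2
      exact sub_eq_zero.1 h2
    · exact (z1s S hr).neg_mem (KR.d0_Z1 hr hs n.1)
    · intro g hg
      show -(ρ g n.1 - n.1) = 0
      rw [n.2 g hg, sub_self, neg_zero]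
    · apply Subtype.ext
      show d0 ρ n.1 + -d0 ρ n.1 = 0
      exact add_neg_cancel _
    · apply Subtype.ext
      refine Prod.ext rfl (Subtype.ext ?_)
      have h1 := congrArg (fun y : zur S I hr => y.1) p.2
      have h2 : d0 ρ p.1.1 + p.1.2.1 = 0 := h1
      show -d0 ρ p.1.1 = p.1.2.1
      exact neg_eq_of_add_eq_zero_right h2
  have h1 := AddSubgroup.card_eq_card_quotient_mul_card_addSubgroup f.ker
  have h2 : Nat.card ((M × zI S I hr) ⧸ f.ker) = Nat.card (zur S I hr) :=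
    Nat.card_congr (QuotientAddGroup.quotientKerEquivOfSurjective f hf).toEquiv
  rw [h2, hk', Nat.card_prod, card_zI h hr hs hk] at h1
  have hpos : 0 < Nat.card (fixP I hr) := Nat.card_pos
  exact (Nat.eq_of_mul_eq_mul_right hpos h1).symm

end Pool.Agent.Work.MP_787500_nt.QL
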