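import Mathlib
import Pool.Agent.Work.MP_787500_nt.QL.UrCnt

/-!
Unramified 2-cocycles with values in `ℚ_2 / ℤ_2` twisted by the cyclotomic character are coboundaries.
-/

set_option autoImplicit false
set_option linter.unusedSectionVars false

namespace Pool.Agent.Work.MP_787500_nt.QL

open Pool.Agent.Work.MP_787500_nt.GP (A0 hf IsAct d0 d1 d2 tw cup11)
open Pool.Agent.Work.MP_787500_nt.KR (FSys Sm1 Sm2 Z1 Z2 B2 Smooth IsChar LocH Pair LDual z1s b1s mem_z1s
  odd_cancel)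
open Pool.Agent.Work.MP_787500_nt.LB (Pr)

variable {D : Type*} [Group D] {S : FSys D} {χ a : D → ℤ_[2]} {σ τ : D} {l : ℕ} {I : Subgroup D}

/-- the values of a smooth function are killed by a power of 2 -/
theorem killed2 {f : D → D → A0} (hf : Sm2 S f) : ∃ k : ℕ, ∀ a b, (2 ^ k) • f a b = 0 := by
  obtain ⟨W, hW, h1⟩ := hf
  have hfin : Finite (D ⧸ W) := Nat.finite_of_card_ne_zero (S.index hW)
  obtain ⟨m, hm, -⟩ := GP.a0_killed (fun q : (D ⧸ W) × (D ⧸ W) => f q.1.out q.2.out)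
  refine ⟨m, fun a b => ?_⟩
  have e : ∀ g : D, ∃ w ∈ W, ((g : D ⧸ W).out : D) = g * w := by
    intro g
    refine ⟨g⁻¹ * (g : D ⧸ W).out, ?_, by group⟩
    rw [← QuotientGroup.eq, QuotientGroup.out_eq']
  obtain ⟨w, hw, ew⟩ := e a
  obtain ⟨w', hw', ew'⟩ := e b
  have h2 := hm ((a : D ⧸ W), (b : D ⧸ W))
  simp only at h2
  rw [ew, ew', h1 a b w hw w' hw'] at h2
  exact h2

theorem smul_killed {k : ℕ} {t : A0} (ht : (2 ^ k) • t = 0) {u : ℤ_[2]}
    (hu : (2 : ℤ_[2]) ^ k ∣ u - 1) : u • t = t := by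
  obtain ⟨c, hc⟩ := hu
  have e : u = c * ((2 ^ k : ℕ) : ℤ_[2]) + 1 := by
    push_cast
    linear_combination hc
  rw [e, add_smul, one_smul, mul_smul, Nat.cast_smul_eq_nsmul, ht, smul_zero, zero_add]

/-- AN UNRAMIFIED 2-COCYCLE IS A COBOUNDARY. -/
theorem ur_cob (h : TameF S χ a σ τ l I) {f : D → D → A0} (hf : Z2 S (tw χ) f)
    (hI : ∀ g g' : D, ∀ n ∈ I, ∀ n' ∈ I, f (g * n) (g' * n') = f g g') : B2 S (tw χ) f := by
  obtain ⟨hsm, hd⟩ := hf
  obtain ⟨k, hk⟩ := killed2 hsm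
  obtain ⟨W, hW, hfW⟩ := hsm
  have hIn := h.In
  obtain ⟨r, hr0, h1, W₁, hW₁, hle, h2⟩ := h.exists_W hW k
  obtain ⟨W₂, hW₂, h3⟩ := h.char.cont k
  -- `f` is invariant under `I W`
  have hJ : ∀ g g' j j' : D, j ∈ I ⊔ W → j' ∈ I ⊔ W → f (g * j) (g' * j') = f g g' := by
    intro g g' j j' hj hj'
    obtain ⟨n, hn, w, hw, rfl⟩ := Subgroup.mem_sup_of_normal_left.1 hj
    obtain ⟨n', hn', w', hw', rfl⟩ := Subgroup.mem_sup_of_normal_left.1 hj'
    rw [← mul_assoc, ← mul_assoc, hfW _ _ w hw w' hw', hI _ _ n hn n' hn']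
  have hd' : ∀ a b c, f a (b * c) = f a b + f (a * b) c - χ a • f b c := by
    intro a b c
    have := hd a b c
    simp only [d2, tw] at this
    have e : f a (b * c) - (f a b + f (a * b) c - χ a • f b c) =
        χ a • f b c - f (a * b) c + f a (b * c) - f a b := by abel
    rw [this] at e
    exact sub_eq_zero.1 e
  have h1b : ∀ b, f 1 b = f 1 1 := by
    intro b
    have := hd' 1 1 b
    rw [one_mul, h.char.one, one_smul, mul_one] at this
    have e : f 1 b - f 1 1 = 0 := by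
      have e2 : f 1 1 + f 1 b - f 1 b - f 1 b = 0 := by rw [← this, sub_self]
      rw [← neg_eq_zero, ← e2]
      abel
    exact sub_eq_zero.1 e
  have ha1 : ∀ a, f a 1 = χ a • f 1 1 := by
    intro a
    have := hd' a 1 1
    rw [one_mul, mul_one] at this
    have e : f a 1 - χ a • f 1 1 = 0 := by
      have e2 : f a 1 + f a 1 - χ a • f 1 1 - f a 1 = 0 := by rw [← this, sub_self]
      rw [← e2]
      abel
    exact sub_eq_zero.1 e
  -- the function
  obtain ⟨F, hFd⟩ : ∃ F : ℕ → A0, ∀ m, F m = ∑ k ∈ Finset.range m, f (σ ^ k) σ := ⟨_, fun _ => rfl⟩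
  obtain ⟨z, hzd⟩ : ∃ z : ℕ → A0, ∀ m, z m = f 1 1 - F m := ⟨_, fun _ => rfl⟩
  have hz0 : z 0 = f 1 1 := by
    rw [hzd, hFd, Finset.sum_range_zero, sub_zero]
  have hzs : ∀ m, z (m + 1) = z m - f (σ ^ m) σ := by
    intro m
    rw [hzd, hzd, hFd, hFd, Finset.sum_range_succ]
    abel
  have hfz : ∀ i j, f (σ ^ i) (σ ^ j) = z i + χ (σ ^ i) • z j - z (i + j) := by
    intro i j
    induction j with
    | zero => rw [pow_zero, ha1, hz0, add_zero]; abel
    | succ j ih =>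
      rw [pow_succ, hd', ih, hzs, ← pow_add, smul_sub, ← add_assoc, hzs]
      abel
  have hkz : ∀ m, (2 ^ k) • z m = 0 := by
    intro m
    rw [hzd, hFd, smul_sub, hk, Finset.smul_sum, Finset.sum_eq_zero fun _ _ => hk _ _, sub_zero]
  have hF : ∀ c, F (r * c) = c • F r := by
    intro c
    induction c with
    | zero =>
      rw [mul_zero, zero_smul, hFd, Finset.sum_range_zero]
    | succ c ih =>
      rw [mul_add, mul_one, add_comm, hFd, Finset.sum_range_add, succ_nsmul, ← ih, add_comm (F (r * c)),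
        hFd, hFd]
      congr 1
      refine Finset.sum_congr rfl fun m _ => ?_
      have e : σ ^ (r + m) = σ ^ m * σ ^ r := by rw [← pow_add, add_comm]
      have := hJ (σ ^ m) σ (σ ^ r) 1 h1 (one_mem _)
      rwa [mul_one, ← e] at this
  obtain ⟨W', hW'e⟩ : ∃ W', W' = W₁ ⊓ W₂ := ⟨_, rfl⟩
  have hW' : S.mem W' := by
    rw [hW'e]
    exact S.inf hW₁ hW₂
  have hle' : W' ≤ W := by
    rw [hW'e]
    exact inf_le_left.trans hle
  have hn' := S.normal hW'
  have hJn : (I ⊔ W').Normal := inferInstance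
  have hzm : ∀ m : ℕ, σ ^ m ∈ I ⊔ W' → z m = f 1 1 := by
    intro m hm
    obtain ⟨c, rfl⟩ := h2 m (by
      refine sup_le_sup_left ?_ I hm
      rw [hW'e]
      exact inf_le_left)
    have e : (2 ^ k) • F r = 0 := by
      rw [hFd, Finset.smul_sum, Finset.sum_eq_zero fun _ _ => hk _ _]
    rw [hzd, hF, mul_comm, mul_smul, e, smul_zero, sub_zero]
  have k3 : ∀ i j : ℕ, i ≤ j → (σ ^ i)⁻¹ * σ ^ j ∈ I ⊔ W' → z i = z j := by
    intro i j hij hj
    obtain ⟨m, rfl⟩ := Nat.exists_eq_add_of_le hij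
    rw [pow_add, inv_mul_cancel_left] at hj
    have e1 := hfz i m
    rw [hzm m hj] at e1
    have e2 := hJ (σ ^ i) 1 1 (σ ^ m) (one_mem _) (sup_le_sup_left hle' I hj)
    rw [mul_one, one_mul, ha1] at e2
    rw [e2] at e1
    have e3 : z i - z (i + m) = 0 := by
      have e4 : z i + χ (σ ^ i) • f 1 1 - z (i + m) - χ (σ ^ i) • f 1 1 = 0 := by
        rw [← e1, sub_self]
      rw [← e4]
      abel
    exact sub_eq_zero.1 e3
  have k4 : ∀ i j : ℕ, (σ ^ i)⁻¹ * σ ^ j ∈ I ⊔ W' → z i = z j := by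
    intro i j hj
    rcases le_total i j with hij | hij
    · exact k3 i j hij hj
    · refine (k3 j i hij ?_).symm
      have := (I ⊔ W').inv_mem hj
      rwa [mul_inv_rev, inv_inv] at this
  choose ι hι using fun g : D => h.frobJ hW' g
  have k5 : ∀ (g : D) (i : ℕ), (σ ^ i)⁻¹ * g ∈ I ⊔ W' → z (ι g) = z i := by
    intro g i hg
    refine k4 (ι g) i ?_
    have h4 := (I ⊔ W').mul_mem (hι g) ((I ⊔ W').inv_mem hg)
    have e : (σ ^ ι g)⁻¹ * g * ((σ ^ i)⁻¹ * g)⁻¹ = (σ ^ ι g)⁻¹ * σ ^ i := by group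
    rwa [e] at h4
  refine ⟨fun g => z (ι g), ⟨W', hW', fun g w hw => ?_⟩, ?_⟩
  · refine k5 (g * w) (ι g) ?_
    rw [← mul_assoc]
    exact (I ⊔ W').mul_mem (hι g) (Subgroup.mem_sup_right hw)
  · funext g g'
    have e1 : f g g' = f (σ ^ ι g) (σ ^ ι g') := by
      have e2 := hJ (σ ^ ι g) (σ ^ ι g') ((σ ^ ι g)⁻¹ * g) ((σ ^ ι g')⁻¹ * g')
        (sup_le_sup_left hle' I (hι g)) (sup_le_sup_left hle' I (hι g'))
      rwa [mul_inv_cancel_left, mul_inv_cancel_left] at e2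
    have e3 : z (ι (g * g')) = z (ι g + ι g') := by
      refine k5 _ _ ?_
      have e : (σ ^ (ι g + ι g'))⁻¹ * (g * g') =
          ((σ ^ ι g')⁻¹ * ((σ ^ ι g)⁻¹ * g) * ((σ ^ ι g')⁻¹)⁻¹) * ((σ ^ ι g')⁻¹ * g') := by
        rw [pow_add]
        group
      rw [e]
      exact (I ⊔ W').mul_mem (hJn.conj_mem _ (hι g) _) (hι g')
    have e4 : χ g • z (ι g') = χ (σ ^ ι g) • z (ι g') := by
      obtain ⟨n, hn, w, hw, e5⟩ := Subgroup.mem_sup_of_normal_left.1 (hι g)
      have e6 : χ g = χ (σ ^ ι g) * χ w := by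
        have e7 : g = σ ^ ι g * (n * w) := by rw [e5, mul_inv_cancel_left]
        conv_lhs => rw [e7]
        rw [h.char.mul, h.char.mul, h.Iχ n hn, one_mul]
      rw [e6, mul_smul]
      congr 1
      refine smul_killed (hkz _) ?_
      have hw2 : w ∈ W₂ := by
        rw [hW'e] at hw
        exact hw.2
      have := h3 1 w hw2
      rwa [one_mul, h.char.one] at this
    show f g g' = z (ι g) + χ g • z (ι g') - z (ι (g * g'))
    rw [e1, hfz, e3, e4]

end Pool.Agent.Work.MP_787500_nt.QL
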