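import Mathlib
import Pool.Agent.Work.MP_787500_nt.QL.Defs
import Pool.Agent.Work.MP_787500_nt.LB.ArithB
import Pool.Agent.Work.MP_787500_nt.GA.CountsF
import Pool.Agent.Work.MP_787500_nt.RQ.Basic
import Pool.Agent.Work.MP_787500_nt.RQ.Big
import Pool.Agent.Work.MP_787500_nt.HP.ChooseQ
import Pool.Agent.Work.MP_787500_nt.HP.FieldQ

/-!
The decomposition groups over the rational numbers at odd primes are tame local groups.
-/

set_option autoImplicit false
set_option linter.unusedSectionVars false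

namespace Pool.Agent.Work.MP_787500_nt.QL

open NumberField
open Pool.Agent.Work.MP_787500_nt.GP (A0 hf IsAct d0 d1 d2 tw stabD)
open Pool.Agent.Work.MP_787500_nt.PA (cyc)
open Pool.Agent.Work.MP_787500_nt.KR (FSys Sm1 Sm2 Z1 Z2 B2 Smooth IsChar LocH Pair LDual z1s b1s fullC fullD
  big)
open Pool.Agent.Work.MP_787500_nt.LB (Pr TameX)
open Pool.Agent.Work.MP_787500_nt.HP

universe u v

section top

variable {D : Type*} [Group D] [TopologicalSpace D] [IsTopologicalGroup D] [CompactSpace D]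
  {χ a : D → ℤ_[2]} {σ τ : D} {l : ℕ} {I : Subgroup D}

/-- `TameF` from `TameX` -/
theorem tameF_of (h : TameX χ a σ τ l I) {S : FSys D} (hS : ∀ W, S.mem W → IsOpen (W : Set D))
    (hχ : IsChar S χ) : TameF S χ a σ τ l I where
  char := hχ
  coc := h.coc
  lodd := h.lodd
  lt := h.lt
  σχ := h.σχ
  σa := h.σa
  τχ := h.τχ
  τa := h.τa
  dens := h.dens
  po := fun g h1 h2 W hW h3 => h.po g h1 h2 W (S.normal hW) (hS W hW) h3
  sep := by
    intro W hW
    have hWo := hS W hW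
    have hopen : ∀ A : Set D, (∀ g ∈ A, ∀ w ∈ W, g * w ∈ A) → IsOpen A := by
      intro A hA
      rw [isOpen_iff_mem_nhds]
      intro g hg
      have h2 : (fun x : D => g * x) '' (W : Set D) ∈ nhds g :=
        (isOpenMap_mul_left g _ hWo).mem_nhds ⟨1, W.one_mem, mul_one g⟩
      filter_upwards [h2]
      rintro _ ⟨w, hw, rfl⟩
      exact hA g hg w hw
    obtain ⟨A, hA⟩ : ∃ A : Set D, A = {g | ∃ p, χ p = 1 ∧ a p = 0 ∧ p⁻¹ * g ∈ W} := ⟨_, rfl⟩
    have hAo : IsOpen A := by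
      refine hopen A fun g hg w hw => ?_
      rw [hA] at hg ⊢
      obtain ⟨p, h1, h2, h3⟩ := hg
      refine ⟨p, h1, h2, ?_⟩
      rw [← mul_assoc]
      exact W.mul_mem h3 hw
    let C : ℕ → Set D := fun n =>
      {g | (2 : ℤ_[2]) ^ n ∣ χ g - 1} ∩ {g | (2 : ℤ_[2]) ^ n ∣ a g} ∩ Aᶜ
    have hCc : ∀ n, IsClosed (C n) := by
      intro n
      refine (IsClosed.inter ?_ ?_).inter hAo.isClosed_compl
      · exact (LB.dvd_clopen n).isClosed.preimage (h.χc.sub continuous_const)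
      · exact (LB.dvd_clopen n).isClosed.preimage h.ac
    by_contra hne
    push Not at hne
    have hnon : ∀ n, (C n).Nonempty := by
      intro n
      obtain ⟨g, h1, h2, h3⟩ := hne n
      refine ⟨g, ⟨h1, h2⟩, ?_⟩
      rw [hA]
      rintro ⟨p, h4, h5, h6⟩
      exact h3 p h4 h5 h6
    obtain ⟨g, hg⟩ := IsCompact.nonempty_iInter_of_sequence_nonempty_isCompact_isClosed C
      (fun n g hg => ⟨⟨(pow_dvd_pow _ (Nat.le_succ n)).trans hg.1.1,
        (pow_dvd_pow _ (Nat.le_succ n)).trans hg.1.2⟩, hg.2⟩) hnon (hCc 0).isCompact hCc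
    rw [Set.mem_iInter] at hg
    have h1 : χ g = 1 := by
      have := LB.dvd_all fun n => (hg n).1.1
      exact sub_eq_zero.1 this
    have h2 : a g = 0 := LB.dvd_all fun n => (hg n).1.2
    refine (hg 0).2 ?_
    rw [hA]
    exact ⟨g, h1, h2, by rw [inv_mul_cancel]; exact W.one_mem⟩
  In := h.In
  Iχ := h.Iχ
  τI := h.τI
  frob := fun g W hW => h.frob g W (S.normal hW) (hS W hW)

end top

section iso

variable {D : Type*} [Group D] {S : FSys D} {χ a : D → ℤ_[2]} {σ τ : D} {l : ℕ} {I : Subgroup D}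

/-- a smaller system -/
theorem TameF.mono (h : TameF S χ a σ τ l I) {S' : FSys D} (hS : ∀ W, S'.mem W → S.mem W)
    (hχ : IsChar S' χ) : TameF S' χ a σ τ l I where
  char := hχ
  coc := h.coc
  lodd := h.lodd
  lt := h.lt
  σχ := h.σχ
  σa := h.σa
  τχ := h.τχ
  τa := h.τa
  dens := h.dens
  po := fun g h1 h2 W hW => h.po g h1 h2 W (hS W hW)
  sep := fun W hW => h.sep W (hS W hW)
  In := h.In
  Iχ := h.Iχ
  τI := h.τI
  frob := fun g W hW => h.frob g W (hS W hW)

/-- isomorphic groups -/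
theorem TameF.iso {D' : Type*} [Group D'] {S' : FSys D'} {χ' a' : D' → ℤ_[2]} {σ' τ' : D'}
    {I' : Subgroup D'} (h : TameF S' χ' a' σ' τ' l I') (e : D ≃* D')
    (hS : ∀ W : Subgroup D', S.mem (W.comap (e : D →* D')) ↔ S'.mem W) :
    TameF S (fun g => χ' (e g)) (fun g => a' (e g)) (e.symm σ') (e.symm τ') l
      (I'.comap (e : D →* D')) := by
  have hS' : ∀ W : Subgroup D, S.mem W → S'.mem (W.comap (e.symm : D' →* D)) := by
    intro W hW
    rw [← hS]
    have : (W.comap (e.symm : D' →* D)).comap (e : D →* D') = W := by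
      ext x
      simp [Subgroup.mem_comap]
    rw [this]
    exact hW
  have hmem : ∀ (W : Subgroup D) (g : D), e g ∈ W.comap (e.symm : D' →* D) ↔ g ∈ W := by
    intro W g
    simp [Subgroup.mem_comap]
  have hI := h.In
  refine ⟨⟨?_, fun g g' => ?_, fun n => ?_, fun g => h.char.odd _⟩, fun g g' => ?_, h.lodd, h.lt, ?_,
    ?_, ?_, ?_, fun g n => h.dens (e g) n, fun g h1 h2 W hW h3 => ?_, fun W hW => ?_, inferInstance,
    fun g hg => h.Iχ _ hg, ?_, fun g W hW => ?_⟩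
  · rw [map_one]
    exact h.char.one
  · show χ' (e (g * g')) = _
    rw [map_mul, h.char.mul]
  · obtain ⟨W, hW, h1⟩ := h.char.cont n
    refine ⟨W.comap (e : D →* D'), (hS W).2 hW, fun g w hw => ?_⟩
    show _ ∣ χ' (e (g * w)) - χ' (e g)
    rw [map_mul]
    exact h1 (e g) (e w) hw
  · show a' (e (g * g')) = _
    rw [map_mul, h.coc]
  · show χ' (e (e.symm σ')) = l
    rw [e.apply_symm_apply, h.σχ]
  · show a' (e (e.symm σ')) = 0
    rw [e.apply_symm_apply, h.σa]
  · show χ' (e (e.symm τ')) = 1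
    rw [e.apply_symm_apply, h.τχ]
  · show a' (e (e.symm τ')) = 1
    rw [e.apply_symm_apply, h.τa]
  · have h4 := h.po (e g) h1 h2 _ (hS' W hW) (by
      rw [← map_mul, hmem]
      exact h3)
    rwa [hmem] at h4
  · obtain ⟨n, hn⟩ := h.sep _ (hS' W hW)
    refine ⟨n, fun g h1 h2 => ?_⟩
    obtain ⟨p, h3, h4, h5⟩ := hn (e g) h1 h2
    refine ⟨e.symm p, ?_, ?_, ?_⟩
    · show χ' (e (e.symm p)) = 1
      rw [e.apply_symm_apply, h3]
    · show a' (e (e.symm p)) = 0
      rw [e.apply_symm_apply, h4]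
    · rw [← hmem, map_mul, map_inv, e.apply_symm_apply]
      exact h5
  · rw [Subgroup.mem_comap]
    show e (e.symm τ') ∈ I'
    rw [e.apply_symm_apply]
    exact h.τI
  · obtain ⟨i, n, hn, hg⟩ := h.frob (e g) _ (hS' W hW)
    refine ⟨i, e.symm n, ?_, ?_⟩
    · rw [Subgroup.mem_comap]
      show e (e.symm n) ∈ I'
      rw [e.apply_symm_apply]
      exact hn
    · rw [← hmem, map_mul, map_inv, map_mul, map_pow, e.apply_symm_apply, e.apply_symm_apply]
      exact hg

end iso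

section arith

variable {Ω : Type u} [Field Ω] [CharZero Ω] [IsAlgClosed Ω]

/-- THE TAME STRUCTURE of the decomposition groups over the rational numbers at odd primes -/
theorem exists_tameQ (halg : Alg Ω) {l : ℕ} (hl : l.Prime) (h2 : l ≠ 2) {Q : Ideal (𝓞 Ω)}
    (hQ : Q.IsPrime) (hlQ : (l : 𝓞 Ω) ∈ Q) : ∃ (a : stb Q → ℤ_[2]) (σ τ : stb Q),
      TameF (fullC (stb Q)) (fun d : stb Q => cyQ (d : Ω ≃+* Ω)) a σ τ l
        ((inr Q).subgroupOf (stb Q)) := by
  obtain ⟨q, hq, hq7, hsp⟩ := exists_q {l} (fun k hk => by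
    rw [Finset.mem_singleton] at hk
    rw [hk]
    exact hl) (fun k hk => by
    rw [Finset.mem_singleton] at hk
    rw [hk]
    exact h2)
  obtain ⟨K, iF, iN, s, α, hK⟩ := exists_base halg hq hq7
  obtain ⟨-, -, hlq, A, hA⟩ := hsp l (Finset.mem_singleton_self l)
  have hKQ : IsQ K q s := ⟨hK.1, hK.2.1, hK.2.2.1.prime.squarefree, by
    have := hK.2.2.2
    omega⟩
  have hS : Spl q l := ⟨hl, h2, fun hd => hlq ((Nat.prime_dvd_prime_iff_eq hl hq).1 hd), A, hA⟩
  obtain ⟨e, he⟩ := stb_equiv α hKQ (Or.inr hS) hQ hlQ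
  obtain ⟨a, σ, τ, hX⟩ := LB.exists_tameX hKQ hS (pb_prime α hQ) ((pb_nat α l).2 hlQ)
  have hcl := GP.stabD_closed (pb α Q)
  have hc : CompactSpace (stabD (pb α Q)) := isCompact_iff_compactSpace.1 hcl.isCompact
  have hch : IsChar (fullC (stb Q)) (fun d : stb Q => cyQ (d : Ω ≃+* Ω)) := RQ.char_lfull (stb Q)
  have hiso := GA.fullC_iso α e he
  have hcc : (fun g : stb Q => cyc ((e g : stabD (pb α Q)) : AbsGal K)) =
      fun d : stb Q => cyQ (d : Ω ≃+* Ω) := by
    funext g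
    rw [← cyQ_emb α, he]
  have hch' : IsChar (fullD (stabD (pb α Q))) (fun g : stabD (pb α Q) => cyc (g : AbsGal K)) := by
    refine ⟨PA.isChar_cyc.one, fun g h => PA.isChar_cyc.mul _ _, fun n => ?_,
      fun g => PA.isChar_cyc.odd _⟩
    obtain ⟨W, hW, h1⟩ := hch.cont n
    refine ⟨W.comap (e.symm : stabD (pb α Q) →* stb Q), ?_, fun g w hw => ?_⟩
    · rw [← hiso]
      have : (W.comap (e.symm : stabD (pb α Q) →* stb Q)).comap (e : stb Q →* stabD (pb α Q)) = W := by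
        ext x
        simp [Subgroup.mem_comap]
      rw [this]
      exact hW
    · have h3 := h1 (e.symm g) (e.symm w) hw
      rw [← map_mul] at h3
      beta_reduce at h3
      have h4 : ∀ g : stabD (pb α Q), cyQ ((e.symm g : stb Q) : Ω ≃+* Ω) = cyc (g : AbsGal K) := by
        intro g
        have := congrFun hcc (e.symm g)
        rw [e.apply_symm_apply] at this
        exact this.symm
      rw [h4, h4] at h3
      exact h3
  have hF := tameF_of hX (S := fullD (stabD (pb α Q))) (by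
    rintro W ⟨-, -, U, hU, hUW⟩
    exact Subgroup.isOpen_mono hUW (hU.preimage continuous_subtype_val)) hch'
  have h4 := hF.iso e hiso
  rw [hcc] at h4
  have hI : (((pb α Q).inertia (AbsGal K)).subgroupOf (stabD (pb α Q))).comap
      (e : stb Q →* stabD (pb α Q)) = (inr Q).subgroupOf (stb Q) := by
    ext g
    rw [Subgroup.mem_comap, Subgroup.mem_subgroupOf, Subgroup.mem_subgroupOf]
    show ((e g : stabD (pb α Q)) : AbsGal K) ∈ _ ↔ _
    rw [← emb_inr α, he]
  rw [hI] at h4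
  exact ⟨_, _, _, h4⟩

/-- the same for the systems `big` -/
theorem exists_tameQ_big (halg : Alg Ω) {l : ℕ} (hl : l.Prime) (h2 : l ≠ 2) {Q : Ideal (𝓞 Ω)}
    (hQ : Q.IsPrime) (hlQ : (l : 𝓞 Ω) ∈ Q) (N : Subgroup (stb Q)) :
    ∃ (a : stb Q → ℤ_[2]) (σ τ : stb Q),
      TameF (big (fullC (stb Q)) N) (fun d : stb Q => cyQ (d : Ω ≃+* Ω)) a σ τ l
        ((inr Q).subgroupOf (stb Q)) := by
  obtain ⟨a, σ, τ, h⟩ := exists_tameQ halg hl h2 hQ hlQ
  refine ⟨a, σ, τ, h.mono (fun W hW => ?_) (RQ.char_big h.char N)⟩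
  obtain ⟨hn, ⟨W₁, ⟨⟨s, hs⟩, -, hi⟩, hle⟩, -⟩ := hW
  exact ⟨⟨s, fun g hg => hle (hs g hg)⟩, hn, fun h0 =>
    hi (Nat.eq_zero_of_zero_dvd (h0 ▸ Subgroup.index_dvd_of_le hle))⟩

end arith

end Pool.Agent.Work.MP_787500_nt.QL
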