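import Mathlib
import Pool.Agent.Work.MP_787500_nt.QL.UrCob
import Pool.Agent.Work.MP_787500_nt.KR.F06

/-!
The unramified cocycles of a tame local group with values in a finite module and in its dual are annihilators of each
other; the number of classes in degree 1.
-/

set_option autoImplicit false
set_option linter.unusedSectionVars false

namespace Pool.Agent.Work.MP_787500_nt.QL

open Pool.Agent.Work.MP_787500_nt.GP (A0 hf IsAct d0 d1 d2 tw cup11)
open Pool.Agent.Work.MP_787500_nt.KR (FSys Sm1 Sm2 Z1 Z2 B2 Smooth IsChar LocH Pair LDual z1s b1s mem_z1s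
  odd_cancel cup11_Z2 f06_left f06_right d0_Z1)
open Pool.Agent.Work.MP_787500_nt.LB (Pr)

variable {D : Type*} [Group D] {S : FSys D} {χ a : D → ℤ_[2]} {σ τ : D} {l : ℕ} {I : Subgroup D}
  {M M' : Type*} [AddCommGroup M] [AddCommGroup M'] {ρ : D → M → M} {ρ' : D → M' → M'}
  {B : M →+ M' →+ A0} {inv : (D → D → A0) → A0} [Finite M] [Finite M']

/-- the values of an unramified cup product do not depend on elements of `I` -/
theorem cup_I (hp : Pair S χ ρ ρ' B) (hIn : I.Normal) {x : D → M} {y : D → M'}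
    (hx : x ∈ zI S I hp.act) (hy : y ∈ zI S I hp.act') (g g' : D) {n n' : D} (hn : n ∈ I)
    (hn' : n' ∈ I) : cup11 ρ' B x y (g * n) (g' * n') = cup11 ρ' B x y g g' := by
  show B (x (g * n)) (ρ' (g * n) (y (g' * n'))) = B (x g) (ρ' g (y g'))
  rw [zI_mul hx _ hn, zI_mul hy _ hn', hp.act'.mul, zI_fix hIn hy _ _ hn]

theorem mem_zI_of_zur {hr : IsAct ρ} (hs : Smooth S ρ) {x : D → M} (hx : x ∈ zur S I hr) :
    ∃ m, x - d0 ρ m ∈ zI S I hr := by
  obtain ⟨h1, m, hm⟩ := hx
  refine ⟨m, (z1s S hr).sub_mem h1 (d0_Z1 hr hs m), fun p hp => ?_⟩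
  rw [Pi.sub_apply, hm p hp, sub_self]

/-- unramified cocycles are orthogonal -/
theorem isotropic (h : TameF S χ a σ τ l I) (L : LocH S χ inv) (hp : Pair S χ ρ ρ' B) {x : D → M}
    {y : D → M'} (hx : x ∈ zur S I hp.act) (hy : y ∈ zur S I hp.act') :
    inv (cup11 ρ' B x y) = 0 := by
  obtain ⟨m, hm⟩ := mem_zI_of_zur hp.sm hx
  obtain ⟨m', hm'⟩ := mem_zI_of_zur hp.sm' hy
  have e1 : cup11 ρ' B x y = fun s t => cup11 ρ' B (x - d0 ρ m) y s t +
      cup11 ρ' B (d0 ρ m) y s t := by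
    funext s t
    show B (x s) (ρ' s (y t)) = B (x s - d0 ρ m s) (ρ' s (y t)) + B (d0 ρ m s) (ρ' s (y t))
    rw [← AddMonoidHom.add_apply, ← map_add, sub_add_cancel]
  have e2 : cup11 ρ' B (x - d0 ρ m) y = fun s t => cup11 ρ' B (x - d0 ρ m) (y - d0 ρ' m') s t +
      cup11 ρ' B (x - d0 ρ m) (d0 ρ' m') s t := by
    funext s t
    show B ((x - d0 ρ m) s) (ρ' s (y t)) = B ((x - d0 ρ m) s) (ρ' s (y t - d0 ρ' m' t)) +
      B ((x - d0 ρ m) s) (ρ' s (d0 ρ' m' t))
    rw [← map_add, ← hp.act'.add, sub_add_cancel]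
  rw [e1, L.add _ _ (cup11_Z2 hp hm.1 hy.1) (cup11_Z2 hp (d0_Z1 hp.act hp.sm m) hy.1),
    f06_left L hp m hy.1, add_zero, e2,
    L.add _ _ (cup11_Z2 hp hm.1 hm'.1) (cup11_Z2 hp hm.1 (d0_Z1 hp.act' hp.sm' m')),
    f06_right L hp m' hm.1, add_zero]
  obtain ⟨z, hz, e⟩ := ur_cob h (cup11_Z2 hp hm.1 hm'.1)
    (fun g g' n hn n' hn' => cup_I hp h.In hm hm' g g' hn hn')
  rw [e]
  exact L.cob z hz

/-- the pairing on cocycles -/
noncomputable def zB (L : LocH S χ inv) (h : Pair S χ ρ ρ' B) :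
    z1s S h.act →+ z1s S h.act' →+ A0 :=
  AddMonoidHom.mk' (fun x => AddMonoidHom.mk'
    (fun y => inv (cup11 ρ' B (x : D → M) (y : D → M')))
    (fun y y' => by
      have e : cup11 ρ' B (x : D → M) ((y + y' : z1s S h.act') : D → M') = fun s t =>
          cup11 ρ' B (x : D → M) (y : D → M') s t + cup11 ρ' B (x : D → M) (y' : D → M') s t := by
        funext s t
        show B ((x : D → M) s) (ρ' s ((y : D → M') t + (y' : D → M') t)) = _
        rw [h.act'.add, map_add]
        rfl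
      rw [e, L.add _ _ (cup11_Z2 h x.2 y.2) (cup11_Z2 h x.2 y'.2)]))
    (fun x x' => by
      ext y
      have e : cup11 ρ' B ((x + x' : z1s S h.act) : D → M) (y : D → M') = fun s t =>
          cup11 ρ' B (x : D → M) (y : D → M') s t + cup11 ρ' B (x' : D → M) (y : D → M') s t := by
        funext s t
        show B ((x : D → M) s + (x' : D → M) s) (ρ' s ((y : D → M') t)) = _
        rw [map_add]
        rfl
      show inv (cup11 ρ' B ((x + x' : z1s S h.act) : D → M) (y : D → M')) = inv _ + inv _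
      rw [e, L.add _ _ (cup11_Z2 h x.2 y.2) (cup11_Z2 h x'.2 y.2)])

theorem zB_apply (L : LocH S χ inv) (h : Pair S χ ρ ρ' B) (x : z1s S h.act)
    (y : z1s S h.act') : zB L h x y = inv (cup11 ρ' B (x : D → M) (y : D → M')) := rfl

/-- the left radical consists of the coboundaries -/
theorem card_radL (L : LocH S χ inv) (h : Pair S χ ρ ρ' B) (hl : LDual S inv ρ ρ' B) :
    Nat.card (GP.perpL (zB L h).flip ⊤) = Nat.card (b1s h.act) := by
  refine Nat.card_congr ⟨fun x => ⟨x.1.1, hl.one x.1.1 x.1.2 fun y hy => x.2 ⟨y, hy⟩ trivial⟩,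
    fun x => ⟨⟨x.1, ?_⟩, fun y _ => ?_⟩, fun x => rfl, fun x => rfl⟩
  · obtain ⟨m, hm⟩ := x.2
    rw [mem_z1s, hm]
    exact d0_Z1 h.act h.sm m
  · obtain ⟨m, hm⟩ := x.2
    show inv (cup11 ρ' B x.1 y.1) = 0
    rw [hm]
    exact f06_left L h m y.2

/-- a 2-power that kills both modules -/
theorem exists_killed (hp : Pair S χ ρ ρ' B) : ∃ k : ℕ, (∀ m : M, (2 ^ k) • m = 0) ∧
    ∀ m : M', (2 ^ k) • m = 0 := by
  obtain ⟨k, hk, -⟩ := GP.a0_killed (fun p : M × M' => B p.1 p.2)
  refine ⟨k, fun m => hp.nd _ fun m' => ?_, fun m' => hp.nd' _ fun m => ?_⟩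
  · rw [map_nsmul, AddMonoidHom.nsmul_apply]
    exact hk (m, m')
  · rw [map_nsmul]
    exact hk (m, m')

theorem card_perp_zur (h : TameF S χ a σ τ l I) (L : LocH S χ inv) (hp : Pair S χ ρ ρ' B)
    (hl : LDual S inv ρ ρ' B) :
    Nat.card M * Nat.card (GP.perpL (zB L hp) ((zur S I hp.act).addSubgroupOf (z1s S hp.act))) =
      Nat.card (z1s S hp.act') * Nat.card (b1s hp.act) := by
  have f1 : Finite (z1s S hp.act) := hl.fin
  have f2 : Finite (z1s S hp.act') := hl.fin'
  obtain ⟨k, hk, -⟩ := exists_killed hp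
  have hle : zur S I hp.act ≤ z1s S hp.act := fun x hx => hx.1
  have e := GP.card_perp (zB L hp) ((zur S I hp.act).addSubgroupOf (z1s S hp.act)) (fun x hx => by
    obtain ⟨m, hm⟩ := hl.one x.1 x.2 fun y hy => hx ⟨y, hy⟩
    rw [AddSubgroup.mem_addSubgroupOf]
    exact ⟨x.2, m, fun i _ => by rw [hm]⟩)
  rw [card_radL L hp hl] at e
  have e2 : Nat.card ((zur S I hp.act).addSubgroupOf (z1s S hp.act)) = Nat.card (zur S I hp.act) :=
    Nat.card_congr (AddSubgroup.addSubgroupOfEquivOfLe hle).toEquiv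
  rw [e2, card_zur h hp.act hp.sm hk] at e
  exact e

/-- THE ANNIHILATOR OF THE UNRAMIFIED COCYCLES. -/
theorem perp_zur (h : TameF S χ a σ τ l I) (L : LocH S χ inv) (hp : Pair S χ ρ ρ' B)
    (hl : LDual S inv ρ ρ' B) {y : D → M'} (hy : Z1 S ρ' y) :
    (∀ x ∈ zur S I hp.act, inv (cup11 ρ' B x y) = 0) ↔ y ∈ zur S I hp.act' := by
  have f1 : Finite (z1s S hp.act) := hl.fin
  have f2 : Finite (z1s S hp.act') := hl.fin'
  refine ⟨fun h0 => ?_, fun h0 x hx => isotropic h L hp hx h0⟩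
  obtain ⟨k, hk, hk'⟩ := exists_killed hp
  have hle : zur S I hp.act' ≤ z1s S hp.act' := fun x hx => hx.1
  have e := card_perp_zur h L hp hl
  have e1 : Nat.card (z1s S hp.act') ≤ Nat.card M' * Nat.card (fixG hp.act) :=
    card_z1s_le h hp.flip hl.fin'
  have e2 := card_b1s hp
  have hpos : 0 < Nat.card M := Nat.card_pos
  have e3 : Nat.card (GP.perpL (zB L hp) ((zur S I hp.act).addSubgroupOf (z1s S hp.act))) ≤
      Nat.card M' := by
    refine Nat.le_of_mul_le_mul_left ?_ hpos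
    rw [e]
    calc Nat.card (z1s S hp.act') * Nat.card (b1s hp.act)
        ≤ Nat.card M' * Nat.card (fixG hp.act) * Nat.card (b1s hp.act) :=
          Nat.mul_le_mul_right _ e1
      _ = Nat.card M * Nat.card M' := by
          rw [mul_assoc, e2, mul_comm]
  have e4 : Nat.card ((zur S I hp.act').addSubgroupOf (z1s S hp.act')) = Nat.card M' := by
    rw [← card_zur h hp.act' hp.sm' hk']
    exact Nat.card_congr (AddSubgroup.addSubgroupOfEquivOfLe hle).toEquiv
  have hsub : (zur S I hp.act').addSubgroupOf (z1s S hp.act') ≤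
      GP.perpL (zB L hp) ((zur S I hp.act).addSubgroupOf (z1s S hp.act)) := by
    intro y' hy' x hx
    rw [zB_apply]
    exact isotropic h L hp (AddSubgroup.mem_addSubgroupOf.1 hx) (AddSubgroup.mem_addSubgroupOf.1 hy')
  have e5 := AddSubgroup.eq_of_le_of_card_ge hsub (by rw [e4]; exact e3)
  have h1 : (⟨y, hy⟩ : z1s S hp.act') ∈
      GP.perpL (zB L hp) ((zur S I hp.act).addSubgroupOf (z1s S hp.act)) := by
    intro x hx
    rw [zB_apply]
    exact h0 x (AddSubgroup.mem_addSubgroupOf.1 hx)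
  rw [← e5, AddSubgroup.mem_addSubgroupOf] at h1
  exact h1

/-- THE NUMBER OF CLASSES. -/
theorem h1_eq (h : TameF S χ a σ τ l I) (L : LocH S χ inv) (hp : Pair S χ ρ ρ' B)
    (hl : LDual S inv ρ ρ' B) :
    KR.h1 S hp.act = Nat.card (fixG hp.act) * Nat.card (fixG hp.act') := by
  have f1 : Finite (z1s S hp.act) := hl.fin
  have f2 : Finite (z1s S hp.act') := hl.fin'
  refine le_antisymm (h1_le h hp hl.fin) ?_
  obtain ⟨k, hk, hk'⟩ := exists_killed hp
  have hle : zur S I hp.act' ≤ z1s S hp.act' := fun x hx => hx.1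
  have e := card_perp_zur h L hp hl
  have e2 := card_b1s hp
  have e2' := card_b1s hp.flip
  have e4 : Nat.card ((zur S I hp.act').addSubgroupOf (z1s S hp.act')) = Nat.card M' := by
    rw [← card_zur h hp.act' hp.sm' hk']
    exact Nat.card_congr (AddSubgroup.addSubgroupOfEquivOfLe hle).toEquiv
  have hsub : (zur S I hp.act').addSubgroupOf (z1s S hp.act') ≤
      GP.perpL (zB L hp) ((zur S I hp.act).addSubgroupOf (z1s S hp.act)) := by
    intro y' hy' x hx
    rw [zB_apply]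
    exact isotropic h L hp (AddSubgroup.mem_addSubgroupOf.1 hx) (AddSubgroup.mem_addSubgroupOf.1 hy')
  have e5 := Nat.card_le_card_of_injective _ (AddSubgroup.inclusion_injective hsub)
  rw [e4] at e5
  have e6 : Nat.card (z1s S hp.act') = Nat.card (b1s hp.act') * KR.h1 S hp.act' :=
    (KR.card_z1s hp.flip).symm
  have e7 := KR.h1_flip L hp hl
  have hb : 0 < Nat.card (b1s hp.act) := by
    refine Nat.pos_of_ne_zero fun h0 => ?_
    rw [h0, mul_zero] at e2
    have : 0 < Nat.card M := Nat.card_pos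
    omega
  have hb' : 0 < Nat.card (b1s hp.act') := by
    refine Nat.pos_of_ne_zero fun h0 => ?_
    have e8 : Nat.card (fixG hp.act') * Nat.card (b1s hp.act') = Nat.card M' := e2'
    rw [h0, mul_zero] at e8
    have : 0 < Nat.card M' := Nat.card_pos
    omega
  refine Nat.le_of_mul_le_mul_left ?_ (Nat.mul_pos hb hb')
  calc Nat.card (b1s hp.act) * Nat.card (b1s hp.act') *
        (Nat.card (fixG hp.act) * Nat.card (fixG hp.act'))
      = Nat.card (fixG hp.act) * Nat.card (b1s hp.act) *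
        (Nat.card (fixG hp.act') * Nat.card (b1s hp.act')) := by ring
    _ = Nat.card M * Nat.card M' := by
      rw [e2]
      congr 1
    _ ≤ Nat.card M * Nat.card (GP.perpL (zB L hp)
        ((zur S I hp.act).addSubgroupOf (z1s S hp.act))) := Nat.mul_le_mul_left _ e5
    _ = Nat.card (b1s hp.act) * Nat.card (b1s hp.act') * KR.h1 S hp.act := by
      rw [e, e6, e7]
      ring

end Pool.Agent.Work.MP_787500_nt.QL
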