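import Mathlib
import Pool.Agent.Work.MP_787500_nt.QL.Lag
import Pool.Agent.Work.MP_787500_nt.QS.Th

/-!
The unramified cocycles of a tame local group with values in a quadratic module are a Lagrangian local condition.
-/

set_option autoImplicit false
set_option linter.unusedSectionVars false

namespace Pool.Agent.Work.MP_787500_nt.QL

open Pool.Agent.Work.MP_787500_nt.GP (A0 hf IsAct d0 d1 d2 tw cup11)
open Pool.Agent.Work.MP_787500_nt.KR (FSys Sm1 Sm2 Z1 Z2 B2 Smooth IsChar LocH Pair LDual z1s b1s mem_z1s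
  odd_cancel cup11_Z2 f06_left f06_right d0_Z1 zM)
open Pool.Agent.Work.MP_787500_nt.QS (QM Lag pB Zq iv_Zq_cob Zq_Z2)

variable {D : Type*} [Group D] {S : FSys D} {χ a : D → ℤ_[2]} {σ τ : D} {l : ℕ} {I : Subgroup D}
  {O : Type*} [CommRing O] {V : Type*} [AddCommGroup V] [Module O V] {ρ : D → V → V}
  {β : V →+ V →+ A0} {lam : O → D → V → A0} {iv : (D → D → A0) → A0}

/-- the unramified cocycles, as a submodule -/
def zurM (S : FSys D) (I : Subgroup D) (act : IsAct ρ) (lin : ∀ g (c : O) m, ρ g (c • m) = c • ρ g m) :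
    Submodule O (D → V) where
  carrier := {x | Z1 S ρ x ∧ ∃ m, ∀ i ∈ I, x i = d0 ρ m i}
  add_mem' := (zur S I act).add_mem
  zero_mem' := (zur S I act).zero_mem
  smul_mem' := by
    rintro c x ⟨h1, m, hm⟩
    refine ⟨(zM S act lin).smul_mem c h1, c • m, fun i hi => ?_⟩
    simp only [Pi.smul_apply, hm i hi, d0, lin, smul_sub]

theorem mem_zurM {act : IsAct ρ} {lin : ∀ g (c : O) m, ρ g (c • m) = c • ρ g m} {x : D → V} :
    x ∈ zurM S I act lin ↔ x ∈ zur S I act := Iff.rfl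

theorem card_zurM [Finite V] (h : TameF S χ a σ τ l I) (act : IsAct ρ)
    (lin : ∀ g (c : O) m, ρ g (c • m) = c • ρ g m) (hs : Smooth S ρ) {k : ℕ}
    (hk : ∀ m : V, (2 ^ k) • m = 0) : Nat.card (zurM S I act lin) = Nat.card V :=
  card_zur h act hs hk

/-- THE UNRAMIFIED COCYCLES ARE LAGRANGIAN. -/
theorem lag_zur [Finite V] (h : TameF S χ a σ τ l I) (L : LocH S χ iv) (hq : QM S χ O ρ β lam)
    (hl : LDual S iv ρ ρ (pB β))
    (hI : ∀ (c : O), ∀ n ∈ I, ∀ v, (∀ n' ∈ I, ρ n' v = v) → lam c n v = 0) :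
    Lag S iv ρ β lam (zurM S I hq.act hq.lin) where
  coc := fun x hx => hx.1
  self := fun x hx => by
    have h1 := perp_zur h L hq.pair hl hx
    rw [mem_zurM]
    constructor
    · intro h2 y hy
      rw [QS.iv_symm L hq hx hy.1]
      exact h1.2 h2 y hy
    · intro h2
      refine h1.1 fun y hy => ?_
      rw [QS.iv_symm L hq hy.1 hx]
      exact h2 y hy
  iso := fun c x hx => by
    obtain ⟨m, hm⟩ := mem_zI_of_zur hq.sm (mem_zurM.1 hx)
    have e : x = (x - d0 ρ m) + d0 ρ m := by abel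
    rw [e, iv_Zq_cob L hq hm.1]
    obtain ⟨z, hz, e2⟩ := ur_cob h (Zq_Z2 L.char hq hm.1 c) (fun g g' n hn n' hn' => by
      have hf := zI_fix h.In hm g'
      show β (c • (x - d0 ρ m) (g * n)) (ρ (g * n) ((x - d0 ρ m) (g' * n'))) +
        lam c (g * n) ((x - d0 ρ m) (g' * n')) =
        β (c • (x - d0 ρ m) g) (ρ g ((x - d0 ρ m) g')) + lam c g ((x - d0 ρ m) g')
      rw [zI_mul hm _ hn, zI_mul hm _ hn', hq.act.mul, hf n hn, hq.coc, hf n hn,
        hI c n hn _ (fun n' hn' => hf n' hn'), smul_zero, zero_add])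
    rw [e2]
    exact L.cob z hz

end Pool.Agent.Work.MP_787500_nt.QL
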