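import Mathlib
import Pool.Agent.Work.MP_787500_nt.QL.LagQ
import Pool.Agent.Work.MP_787500_nt.QS.KQ

/-!
The module `M × M` over the rational numbers at the ramified places and at infinity.
-/

set_option autoImplicit false
set_option linter.unusedSectionVars false

namespace Pool.Agent.Work.MP_787500_nt.QL

open Pool.Agent.Work.MP_787500_nt.GP (A0 hf IsAct d0 d1 d2 tw cup11)
open Pool.Agent.Work.MP_787500_nt.KR (FSys Sm1 Sm2 Z1 Z2 B2 Smooth IsChar LocH Pair LDual z1s b1s mem_z1s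
  odd_cancel cup11_Z2 f06_left f06_right d0_Z1 zM SDualF)
open Pool.Agent.Work.MP_787500_nt.QS (QM Lag pB Zq iv_Zq_cob Zq_Z2 Two ac2 be2 la2 urY be2_apply)

section defs

variable {G Γ : Type*} [Group G] [Group Γ] (e : G →* Γ) (c : Γ)
  {X : Type*} [Group X] (T : FSys X) (χx : X → ℤ_[2]) (jx : X →* Γ) (In : Set X)

/-- A ramified finite place: `J` is the inertia group over the rational numbers, `In` its intersection with the group
of the quadratic field; `θ c` is in the image of `J`. -/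
structure RamF (θ : G) (J : Subgroup X) : Prop where
  tame : ∃ (a : X → ℤ_[2]) (σ τ : X) (l : ℕ), TameF T χx a σ τ l J
  inn : ∀ d, d ∈ In ↔ d ∈ J ∧ ∃ g, e g = jx d
  ex : ∃ t ∈ J, jx t = e θ * c

/-- The place at infinity. -/
structure RamI : Prop where
  inn : ∀ d ∈ In, d = 1
  ex : ∃ t : X, t * t = 1 ∧ jx t = c ∧ ∀ d, d = 1 ∨ d = t

end defs

variable {G Γ : Type*} [Group G] [Group Γ] {e : G →* Γ} {c : Γ} {κ : G →* G}
  {X : Type*} [Group X] {T : FSys X} {χx : X → ℤ_[2]} {jx : X →* Γ} {In : Set X}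
  {O : Type*} [CommRing O] {M : Type*} [AddCommGroup M] [Module O M] {ρ : G → M → M} {b : M →+ M →+ A0}
  {iv : (X → X → A0) → A0}

/-- `In` acts trivially on `M × M` -/
def TrivIn (e : G →* Γ) (κ : G →* G) (jx : X →* Γ) (In : Set X) (ρ : G → M → M) : Prop :=
  ∀ d ∈ In, ∃ g, e g = jx d ∧ (∀ m, ρ g m = m) ∧ ∀ m, ρ (κ g) m = m

theorem TrivIn.act (X₂ : Two e c κ) (h : TrivIn e κ jx In ρ) {d : X} (hd : d ∈ In) (v : M × M) :
    ac2 e c κ ρ (jx d) v = v := by
  obtain ⟨g, h1, h2, h3⟩ := h d hd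
  rw [← h1, X₂.ac_e, h2, h3]

/-- a cocycle of a group that vanishes at the square of an element outside of `G` -/
theorem cob_t (X₂ : Two e c κ) (act : IsAct ρ) {x : X → M × M}
    (hx : ∀ a b, x (a * b) = x a + ac2 e c κ ρ (jx a) (x b)) {t : X} {θ : G} (ht : jx t = e θ * c)
    (h2 : x (t * t) = 0) : x t = d0 (fun d => ac2 e c κ ρ (jx d)) (-(x t).1, 0) t := by
  have h3 := hx t t
  rw [h2, ht, X₂.ac_ec] at h3
  have h4 : (0 : M) = (x t).2 + ρ (κ θ) (x t).1 := congrArg Prod.snd h3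
  show x t = ac2 e c κ ρ (jx t) (-(x t).1, 0) - (-(x t).1, 0)
  rw [ht, X₂.ac_ec]
  refine Prod.ext ?_ ?_
  · show (x t).1 = ρ θ 0 - -(x t).1
    rw [act.zero, zero_sub, neg_neg]
  · show (x t).2 = ρ (κ θ) (-(x t).1) - 0
    rw [act.neg, sub_zero]
    exact eq_neg_of_add_eq_zero_left h4.symm

section fin

variable {θ : G} {J : Subgroup X}

/-- elements of `J` outside of `In` -/
theorem RamF.cases (X₂ : Two e c κ) (h : RamF e c T χx jx In θ J) {d : X} (hd : d ∈ J) :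
    d ∈ In ∨ ∃ θ' : G, jx d = e θ' * c := by
  rcases X₂.cases (jx d) with ⟨g, hg⟩ | ⟨g, hg⟩
  · exact Or.inl ((h.inn d).2 ⟨hd, g, hg⟩)
  · exact Or.inr ⟨g, hg.symm⟩

theorem RamF.mul_mem (X₂ : Two e c κ) (h : RamF e c T χx jx In θ J) {d d' : X} (hd : d ∈ J)
    (hd' : d' ∈ J) {g g' : G} (e1 : jx d = e g * c) (e2 : jx d' = e g' * c) : d * d' ∈ In := by
  refine (h.inn _).2 ⟨J.mul_mem hd hd', g * κ g', ?_⟩
  rw [map_mul, map_mul, e1, e2, X₂.kap]
  group

theorem RamF.one_mem (h : RamF e c T χx jx In θ J) : (1 : X) ∈ In :=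
  (h.inn 1).2 ⟨J.one_mem, 1, by rw [map_one, map_one]⟩

/-- the conditions `urY` and `zurM` agree -/
theorem urY_eq (X₂ : Two e c κ) (h : RamF e c T χx jx In θ J) (act : IsAct ρ)
    (lin : ∀ g (a : O) m, ρ g (a • m) = a • ρ g m) (ht : TrivIn e κ jx In ρ) :
    urY (O := O) T ((X₂.act act).comp jx) (fun d => X₂.lin lin (jx d)) In =
      zurM T J ((X₂.act act).comp jx) (fun d => X₂.lin lin (jx d)) := by
  ext x
  constructor
  · rintro ⟨h1, h2⟩
    obtain ⟨t, htJ, hte⟩ := h.ex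
    have h3 := cob_t X₂ act h1.2 hte (h2 _ (h.mul_mem X₂ htJ htJ hte hte))
    refine ⟨h1, (-(x t).1, 0), fun d hd => ?_⟩
    rcases h.cases X₂ hd with hi | ⟨θ', hθ'⟩
    · rw [h2 d hi]
      show 0 = ac2 e c κ ρ (jx d) (-(x t).1, 0) - (-(x t).1, 0)
      rw [ht.act X₂ hi, sub_self]
    · have h4 : t⁻¹ * d ∈ In := by
        refine h.mul_mem X₂ (J.inv_mem htJ) hd (g := κ θ⁻¹) ?_ hθ'
        rw [map_inv, hte, X₂.kap, map_inv, mul_inv_rev]
        have hc : c⁻¹ = c := inv_eq_of_mul_eq_one_left X₂.cc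
        rw [hc, mul_assoc, mul_assoc, X₂.cc, mul_one]
      have e1 : d = t * (t⁻¹ * d) := by group
      have e2 : x d = x t := by
        conv_lhs => rw [e1]
        rw [h1.2, h2 _ h4]
        show x t + ac2 e c κ ρ (jx t) 0 = x t
        rw [(X₂.act act).zero, add_zero]
      have e3 : ∀ v : M × M, ac2 e c κ ρ (jx d) v = ac2 e c κ ρ (jx t) v := by
        intro v
        conv_lhs => rw [e1]
        rw [map_mul, (X₂.act act).mul, ht.act X₂ h4]
      rw [e2]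
      show x t = ac2 e c κ ρ (jx d) (-(x t).1, 0) - (-(x t).1, 0)
      rw [e3]
      exact h3
  · rintro ⟨h1, m, h2⟩
    refine ⟨h1, fun d hd => ?_⟩
    rw [h2 d ((h.inn d).1 hd).1]
    show ac2 e c κ ρ (jx d) m - m = 0
    rw [ht.act X₂ hd, sub_self]

/-- the elements fixed by `J` -/
theorem fix_J (X₂ : Two e c κ) (h : RamF e c T χx jx In θ J) (act : IsAct ρ)
    (ht : TrivIn e κ jx In ρ) {v : M × M} :
    (∀ n ∈ J, ac2 e c κ ρ (jx n) v = v) ↔ v.1 = ρ θ v.2 := by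
  obtain ⟨t, htJ, hte⟩ := h.ex
  -- `θ (κ θ)` acts trivially
  have hin := h.mul_mem X₂ htJ htJ hte hte
  obtain ⟨g, hg, hg1, hg2⟩ := ht _ hin
  have hgg : g = θ * κ θ := by
    apply X₂.inj
    rw [hg, map_mul, hte, map_mul, X₂.kap]
    group
  have k1 : ∀ m, ρ θ (ρ (κ θ) m) = m := fun m => by rw [← act.mul, ← hgg, hg1]
  have k2 : ∀ m, ρ (κ θ) (ρ θ m) = m := fun m => by
    have := hg2 m
    rw [hgg, map_mul, X₂.kk, act.mul] at this
    exact this
  constructor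
  · intro h1
    have h2 := h1 t htJ
    rw [hte, X₂.ac_ec] at h2
    exact (congrArg Prod.fst h2).symm
  · intro h1 n hn
    rcases h.cases X₂ hn with hi | ⟨θ', hθ'⟩
    · exact ht.act X₂ hi v
    · have h4 : t⁻¹ * n ∈ In := by
        refine h.mul_mem X₂ (J.inv_mem htJ) hn (g := κ θ⁻¹) ?_ hθ'
        rw [map_inv, hte, X₂.kap, map_inv, mul_inv_rev]
        have hc : c⁻¹ = c := inv_eq_of_mul_eq_one_left X₂.cc
        rw [hc, mul_assoc, mul_assoc, X₂.cc, mul_one]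
      have e1 : n = t * (t⁻¹ * n) := by group
      rw [e1, map_mul, (X₂.act act).mul, ht.act X₂ h4, hte, X₂.ac_ec]
      refine Prod.ext h1.symm ?_
      show ρ (κ θ) v.1 = v.2
      rw [h1, k2]

/-- the correction vanishes on elements fixed by `J` -/
theorem la2_J (X₂ : Two e c κ) (h : RamF e c T χx jx In θ J)
    (hs : ∀ m m', b m m' = b m' m) (hbal : ∀ (a : O) m m', b (a • m) m' = b m (a • m'))
    (halt : ∀ (a : O) m, b (a • m) (ρ θ m) = 0) (act : IsAct ρ) (ht : TrivIn e κ jx In ρ) (a : O)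
    {n : X} (hn : n ∈ J) {v : M × M} (hv : ∀ n' ∈ J, ac2 e c κ ρ (jx n') v = v) :
    la2 e c κ ρ b a (jx n) v = 0 := by
  rcases h.cases X₂ hn with hi | ⟨θ', hθ'⟩
  · obtain ⟨g, hg, -, -⟩ := ht n hi
    rw [← hg, X₂.la_e]
  · have h1 : la2 e c κ ρ b a (jx n) v =
        be2 b (a • ac2 e c κ ρ (jx n) v) (ac2 e c κ ρ (jx n) v) := by
      rw [la2, if_neg]
      rintro ⟨g, hg⟩
      exact X₂.out θ' g (hg.trans hθ')
    rw [h1, hv n hn, be2_apply]
    show b (a • v.1) v.2 = 0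
    rw [(fix_J X₂ h act ht).1 hv, hbal, hs, hbal, ← hbal, halt]

/-- surjectivity on the elements fixed by `J` -/
theorem fix_surj (X₂ : Two e c κ) (h : RamF e c T χx jx In θ J) (act : IsAct ρ)
    (ht : TrivIn e κ jx In ρ) {N : Type*} [AddCommGroup N] {ρN : G → N → N} (actN : IsAct ρN)
    (htN : TrivIn e κ jx In ρN) {p : M → N} (hp : Function.Surjective p)
    (heq : ∀ g m, p (ρ g m) = ρN g (p m)) {w : N × N} (hw : ∀ n ∈ J, ac2 e c κ ρN (jx n) w = w) :
    ∃ v : M × M, (∀ n ∈ J, ac2 e c κ ρ (jx n) v = v) ∧ (p v.1, p v.2) = w := by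
  obtain ⟨m, hm⟩ := hp w.2
  refine ⟨(ρ θ m, m), (fix_J X₂ h act ht).2 rfl, Prod.ext ?_ hm⟩
  show p (ρ θ m) = w.1
  rw [heq, hm, (fix_J X₂ h actN htN).1 hw]

end fin

/-- LAGRANGIAN AT THE RAMIFIED PLACES. -/
theorem lag_ramF [Finite M] (X₂ : Two e c κ) {θ : G} {J : Subgroup X}
    (h : RamF e c T χx jx In θ J) (L : LocH T χx iv) {lin : ∀ g (a : O) m, ρ g (a • m) = a • ρ g m}
    {act : IsAct ρ} (hs : ∀ m m', b m m' = b m' m) (hbal : ∀ (a : O) m m', b (a • m) m' = b m (a • m'))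
    (halt : ∀ (a : O) m, b (a • m) (ρ θ m) = 0) (ht : TrivIn e κ jx In ρ)
    (hq : QM T χx O (fun d => ac2 e c κ ρ (jx d)) (be2 b) (fun a d => la2 e c κ ρ b a (jx d)))
    (hl : LDual T iv (fun d => ac2 e c κ ρ (jx d)) (fun d => ac2 e c κ ρ (jx d)) (pB (be2 b))) :
    Lag T iv (fun d => ac2 e c κ ρ (jx d)) (be2 b) (fun a d => la2 e c κ ρ b a (jx d))
      (urY (O := O) T ((X₂.act act).comp jx) (fun d => X₂.lin lin (jx d)) In) := by
  rw [urY_eq X₂ h act lin ht]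
  obtain ⟨a, σ, τ, l, hT⟩ := h.tame
  exact lag_zur hT L hq hl fun a n hn v hv => la2_J X₂ h hs hbal halt act ht a hn hv

/-- every cocycle at infinity is a coboundary -/
theorem cob_inf (X₂ : Two e c κ) (h : RamI c jx In) (act : IsAct ρ) {x : X → M × M}
    (hx : ∀ a b, x (a * b) = x a + ac2 e c κ ρ (jx a) (x b)) :
    ∃ m, x = d0 (fun d => ac2 e c κ ρ (jx d)) m := by
  obtain ⟨t, ht, htc, hall⟩ := h.ex
  have h1 : x 1 = 0 := by
    have := hx 1 1
    rw [mul_one, map_one, (X₂.act act).one] at this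
    exact left_eq_add.1 this
  have h3 := cob_t X₂ act hx (t := t) (θ := 1) (by rw [htc, map_one, one_mul]) (by rw [ht, h1])
  refine ⟨(-(x t).1, 0), funext fun d => ?_⟩
  rcases hall d with hd | hd
  · rw [hd, h1]
    show 0 = ac2 e c κ ρ (jx 1) (-(x t).1, 0) - (-(x t).1, 0)
    rw [map_one, (X₂.act act).one, sub_self]
  · rw [hd]
    exact h3

/-- LAGRANGIAN AT INFINITY. -/
theorem lag_ramI (X₂ : Two e c κ) (h : RamI c jx In) (L : LocH T χx iv)
    {lin : ∀ g (a : O) m, ρ g (a • m) = a • ρ g m} {act : IsAct ρ}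
    (hq : QM T χx O (fun d => ac2 e c κ ρ (jx d)) (be2 b) (fun a d => la2 e c κ ρ b a (jx d))) :
    Lag T iv (fun d => ac2 e c κ ρ (jx d)) (be2 b) (fun a d => la2 e c κ ρ b a (jx d))
      (urY (O := O) T ((X₂.act act).comp jx) (fun d => X₂.lin lin (jx d)) In) where
  coc := fun x hx => hx.1
  self := fun x hx => by
    constructor
    · intro _ y hy
      obtain ⟨m, rfl⟩ := cob_inf X₂ h act hx.2
      exact QS.iv_cup_d0 L hq hy.1 m
    · intro _
      refine ⟨hx, fun d hd => ?_⟩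
      rw [h.inn d hd]
      have := hx.2 1 1
      rw [mul_one] at this
      beta_reduce at this
      rw [map_one, (X₂.act act).one] at this
      exact left_eq_add.1 this
  iso := fun a x hx => by
    obtain ⟨m, rfl⟩ := cob_inf X₂ h act hx.1.2
    exact QS.iv_Zq_d0 L hq m a

end Pool.Agent.Work.MP_787500_nt.QL
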