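import Mathlib
import Pool.Agent.Work.MP_787500_nt.QL.Ram
import Pool.Agent.Work.MP_787500_nt.QL.TameQ

/-!
The arithmetic instances of `RamF` and `RamI`.
-/

set_option autoImplicit false
set_option linter.unusedSectionVars false

namespace Pool.Agent.Work.MP_787500_nt.QL

open NumberField
open Pool.Agent.Work.MP_787500_nt.GP (A0 hf IsAct d0 d1 d2 tw stabD)
open Pool.Agent.Work.MP_787500_nt.KR (FSys Sm1 Sm2 Z1 Z2 B2 Smooth IsChar LocH Pair LDual z1s b1s fullC fullD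
  big)
open Pool.Agent.Work.MP_787500_nt.HP
open Pool.Agent.Work.MP_787500_nt.QS (Two)

universe u v

section arith

variable {Ω : Type u} [Field Ω] [CharZero Ω] [IsAlgClosed Ω] {K : Type v} [Field K] [NumberField K]
  {D : ℕ} {s : K} (α : AlgebraicClosure K ≃+* Ω) {c : Ω ≃+* Ω}

/-- THE PLACES DIVIDING `D`. -/
theorem ramF_Q (halg : Alg Ω) (hK : IsQ K D s) {p : ℕ} (hp : p ∈ D.primeFactors)
    {Q : Ideal (𝓞 Ω)} (hQ : Q.IsPrime) (hpQ : (p : 𝓞 Ω) ∈ Q) (N : Subgroup (stb Q)) {θ : AbsGal K}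
    (hθ : emb α θ * c ∈ inr Q) :
    RamF (emb α) c (big (fullC (stb Q)) N) (fun d : stb Q => cyQ (d : Ω ≃+* Ω)) (stb Q).subtype
      {d | (d : Ω ≃+* Ω) ∈ inr Q ∧ ∃ g, emb α g = d} θ ((inr Q).subgroupOf (stb Q)) where
  tame := by
    have h2 : p ≠ 2 := by
      rintro rfl
      have h1 := Nat.dvd_of_mem_primeFactors hp
      have h3 := hK.mod
      omega
    obtain ⟨a, σ, τ, h⟩ := exists_tameQ_big halg (Nat.prime_of_mem_primeFactors hp) h2 hQ hpQ N
    exact ⟨a, σ, τ, p, h⟩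
  inn := fun d => Iff.rfl
  ex := ⟨⟨emb α θ * c, inr_le_stb Q hθ⟩, hθ, rfl⟩

/-- THE PLACE AT INFINITY. -/
theorem ramI_Q (hc : ∀ x, c (c x) = x) {In : Set (Subgroup.zpowers c)} (hIn : ∀ d ∈ In, d = 1) :
    RamI c (Subgroup.zpowers c).subtype In where
  inn := hIn
  ex := by
    have hcc : c * c = 1 := by
      ext x
      exact hc x
    refine ⟨⟨c, Subgroup.mem_zpowers c⟩, Subtype.ext hcc, rfl, ?_⟩
    rintro ⟨d, n, rfl⟩
    rcases Int.even_or_odd n with ⟨k, hk⟩ | ⟨k, hk⟩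
    · left
      apply Subtype.ext
      show c ^ n = 1
      rw [hk, zpow_add, ← (Commute.refl c).mul_zpow, hcc, one_zpow]
    · right
      apply Subtype.ext
      show c ^ n = c
      rw [hk, zpow_add, two_mul, zpow_add, ← (Commute.refl c).mul_zpow, hcc, one_zpow, one_mul,
        zpow_one]

end arith

section triv

variable {G Γ : Type*} [Group G] [Group Γ] {e : G →* Γ} {κ : G →* G} {X : Type*} [Group X]
  {jx : X →* Γ} {In : Set X} {S : FSys G} {M : Type*} [AddCommGroup M] {ρ : G → M → M}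

/-- `In` acts trivially on smooth modules -/
theorem trivIn_of (hin : ∀ d ∈ In, ∃ g, e g = jx d ∧ ∀ W, S.mem W → g ∈ W)
    (ksys : ∀ W, S.mem W → ∃ W', S.mem W' ∧ ∀ v ∈ W', κ v ∈ W) (hs : Smooth S ρ) :
    TrivIn e κ jx In ρ := by
  intro d hd
  obtain ⟨g, hg, h1⟩ := hin d hd
  obtain ⟨W, hW, h2⟩ := hs
  obtain ⟨W', hW', h3⟩ := ksys W hW
  exact ⟨g, hg, h2 g (h1 W hW), h2 _ (h3 g (h1 W' hW'))⟩

end triv

end Pool.Agent.Work.MP_787500_nt.QL
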