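import Mathlib
import Pool.Agent.Work.MP_787500_nt.QL.RamQ
import Pool.Agent.Work.MP_787500_nt.QS.Qm2
import Pool.Agent.Work.MP_787500_nt.QS.KQ2

/-!
The condition at the ramified places and at infinity is Lagrangian for every self-dual module.
-/

set_option autoImplicit false
set_option linter.unusedSectionVars false

namespace Pool.Agent.Work.MP_787500_nt.QL

open Pool.Agent.Work.MP_787500_nt.GP (A0 IsAct d0 d1 d2 tw cup11 cup21 cup12 cup01 cup02 EvPow IsPow)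
open Pool.Agent.Work.MP_787500_nt.KR (FSys Sm1 Sm2 IsChar Smooth Z1 Z2 B2 LocH Pair LDual GlobH Mid Sha2
  IsTr zM z1s b1s ParD SDualF perpM selM Betw SubU h1)
open Pool.Agent.Work.MP_787500_nt.QS

universe u v

section

variable {G : Type*} [Group G] {S : FSys G} {Φ Ψ : Type*} [Fintype Φ] [Fintype Ψ] {D : Φ → Type u}
  [∀ w, Group (D w)] {SD : ∀ w, FSys (D w)} {j : ∀ w, D w →* G} {χ : G → ℤ_[2]}
  {inv : ∀ w, (D w → D w → A0) → A0} {κ : G →* G} {Θ : Set (G × G)} {Γ : Type*} [Group Γ]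
  {Sq : FSys Γ} {E : Ψ → Type u} [∀ p, Group (E p)] {SE : ∀ p, FSys (E p)} {je : ∀ p, E p →* Γ}
  {χq : Γ → ℤ_[2]} {inve : ∀ p, (E p → E p → A0) → A0} {e : G →* Γ} {c : Γ}
  {In : ∀ p, Set (E p)}
  {tr : ((Γ → Γ → Γ → A0) × (∀ i, gQ D E i → gQ D E i → A0)) →+ A0} {O : Type*} [CommRing O]
  {M : Type v} [AddCommGroup M] [Module O M] [Finite M] {ρ : G → M → M} {b : M →+ M →+ A0}

/-- the quadratic module `M × M` over the rational numbers -/
theorem qm_Q (K : KQ.{u, v} S SD j χ inv κ Sq SE je χq inve e c In tr)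
    (ksys : ∀ W, S.mem W → ∃ W', S.mem W' ∧ ∀ v ∈ W', κ v ∈ W) (h : SDualF S χ κ Θ O ρ b) :
    QM Sq χq O (ac2 e c κ ρ) (be2 b) (la2 e c κ ρ b) :=
  qm_two K.two K.chi K.chic K.glob.glob.char.mul K.up ksys h

/-- the quadratic module at `p` -/
theorem qm_p (K : KQ.{u, v} S SD j χ inv κ Sq SE je χq inve e c In tr)
    (ksys : ∀ W, S.mem W → ∃ W', S.mem W' ∧ ∀ v ∈ W', κ v ∈ W) (h : SDualF S χ κ Θ O ρ b)
    (p : Ψ) :
    QM (SE p) (fun d => χq (je p d)) O (fun d => ac2 e c κ ρ (je p d)) (be2 b)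
      (fun a d => la2 e c κ ρ b a (je p d)) :=
  (qm_Q K ksys h).comp (K.glob.glob.jsm (.inr p))

theorem locH_p (K : KQ.{u, v} S SD j χ inv κ Sq SE je χq inve e c In tr) (p : Ψ) :
    LocH (SE p) (fun d => χq (je p d)) (inve p) := K.glob.glob.loc (.inr p)

theorem lDual_p (K : KQ.{u, v} S SD j χ inv κ Sq SE je χq inve e c In tr)
    (ksys : ∀ W, S.mem W → ∃ W', S.mem W' ∧ ∀ v ∈ W', κ v ∈ W) (h : SDualF S χ κ Θ O ρ b)
    (p : Ψ) :
    LDual (SE p) (inve p) (fun d => ac2 e c κ ρ (je p d)) (fun d => ac2 e c κ ρ (je p d))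
      (pB (be2 b)) := K.glob.ld (.inr p) (qm_Q K ksys h).pair

theorem trivIn_p (K : KQ.{u, v} S SD j χ inv κ Sq SE je χq inve e c In tr)
    (ksys : ∀ W, S.mem W → ∃ W', S.mem W' ∧ ∀ v ∈ W', κ v ∈ W) (hs : Smooth S ρ)
    (p : Ψ) : TrivIn e κ (je p) (In p) ρ := trivIn_of (K.inz p) ksys hs

/-- LAGRANGIAN AT A FINITE RAMIFIED PLACE. -/
theorem lagR_F (K : KQ.{u, v} S SD j χ inv κ Sq SE je χq inve e c In tr)
    (ksys : ∀ W, S.mem W → ∃ W', S.mem W' ∧ ∀ v ∈ W', κ v ∈ W) (h : SDualF S χ κ Θ O ρ b)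
    {p : Ψ} {θ φ : G} (hΘ : (θ, φ) ∈ Θ) {J : Subgroup (E p)}
    (hR : RamF e c (SE p) (fun d => χq (je p d)) (je p) (In p) θ J) :
    LagR K.two (SE p) (je p) (inve p) (In p) h.act h.lin b :=
  lag_ramF (act := h.act) (lin := h.lin) K.two hR (locH_p K p) h.symm h.bal (h.alt _ hΘ) (trivIn_p K ksys h.sm p)
    (qm_p K ksys h p) (lDual_p K ksys h p)

/-- LAGRANGIAN AT INFINITY. -/
theorem lagR_I (K : KQ.{u, v} S SD j χ inv κ Sq SE je χq inve e c In tr)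
    (ksys : ∀ W, S.mem W → ∃ W', S.mem W' ∧ ∀ v ∈ W', κ v ∈ W) (h : SDualF S χ κ Θ O ρ b)
    {p : Ψ} (hR : RamI c (je p) (In p)) :
    LagR K.two (SE p) (je p) (inve p) (In p) h.act h.lin b :=
  lag_ramI (act := h.act) (lin := h.lin) K.two hR (locH_p K p) (qm_p K ksys h p)

end

end Pool.Agent.Work.MP_787500_nt.QL
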